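import Pool.Agent.MP_a88b1d_nt.H92.Res
import Pool.Agent.MP_a88b1d_nt.H42.Spec

/-! Rows LT and ORTH. -/

namespace Pool.Agent.MP_a88b1d_nt.H92

open H42 Polynomial Filter Topology

variable {C : Type} [NontriviallyNormedField C] [IsUltrametricDist C] [Algebra (ZMod 2) C] {T : C}

theorem root [IsAlgClosed C] (hT : 1 < ‖T‖) :
    ∃ e ∈ Finf T, e ^ 2 + T ^ 3 * e = T + 1 ∧ ‖e‖ < 1 := by
  have h2 : (2 : C) = 0 := two_eq
  have hT0 : T ≠ 0 := by rw [← norm_pos_iff]; linarith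
  have hn : ‖T + 1‖ = ‖T‖ := norm_add_of_lt (by simpa using hT)
  have h3 : ‖T‖ < ‖T‖ ^ 3 := by nlinarith [mul_pos (sub_pos.2 hT) (sub_pos.2 hT)]
  obtain ⟨e, he, hs⟩ : ∃ e : C, e ^ 2 + T ^ 3 * e = T + 1 ∧ ‖e‖ < 1 := by
    obtain ⟨x, hx⟩ := IsAlgClosed.exists_root (X ^ 2 + Polynomial.C (T ^ 3) * X +
      Polynomial.C (T + 1) : C[X]) (by
        have : (X ^ 2 + Polynomial.C (T ^ 3) * X + Polynomial.C (T + 1) : C[X]).degree = 2 := by
          compute_degree!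
        rw [this]; norm_num)
    simp only [IsRoot.def, eval_add, eval_pow, eval_X, eval_mul, eval_C] at hx
    have hx' : x ^ 2 + T ^ 3 * x = T + 1 := by linear_combination hx - (T + 1) * h2
    by_cases h : ‖x‖ < 1
    · exact ⟨x, hx', h⟩
    · refine ⟨x + T ^ 3, by linear_combination hx' + (x * T ^ 3 + T ^ 6) * h2, ?_⟩
      have e1 : x * (x + T ^ 3) = T + 1 := by linear_combination hx'
      have e2 : ‖x‖ * ‖x + T ^ 3‖ = ‖T‖ := by rw [← norm_mul, e1, hn]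
      by_contra h'
      rw [not_lt] at h h'
      have e3 : T ^ 3 = x + (x + T ^ 3) := by linear_combination (-x) * h2
      have e4 := IsUltrametricDist.norm_add_le_max x (x + T ^ 3)
      rw [← e3, norm_pow] at e4
      rcases le_max_iff.1 e4 with h4 | h4 <;> nlinarith
  refine ⟨e, ?_, he, hs⟩
  have key : ∀ k : ℕ, ∃ y ∈ Finf T, ‖e - y‖ ≤ (‖T‖⁻¹) ^ k := by
    intro k
    induction k with
    | zero => exact ⟨0, zero_mem _, by simpa using hs.le⟩
    | succ k ih =>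
      obtain ⟨y, hy, h⟩ := ih
      refine ⟨(T + 1 + y ^ 2) / T ^ 3, div_mem (add_mem (add_mem T_mem (one_mem _)) (pow_mem hy _))
        (pow_mem T_mem _), ?_⟩
      have e1 : e - (T + 1 + y ^ 2) / T ^ 3 = (e - y) ^ 2 / T ^ 3 := by
        field_simp
        linear_combination he - (e ^ 2 - e * y + y ^ 2) * h2
      have hi : ‖T‖⁻¹ ≤ 1 := inv_le_one_of_one_le₀ hT.le
      have h1 : (‖T‖⁻¹) ^ k ≤ 1 := pow_le_one₀ (by positivity) hi
      rw [e1, norm_div, norm_pow, norm_pow, pow_succ _ k, div_le_iff₀ (by positivity)]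
      have h4 : 1 ≤ ‖T‖⁻¹ * ‖T‖ ^ 3 := by
        rw [inv_mul_eq_div, le_div_iff₀ (by positivity)]; linarith
      have h5 : 0 ≤ (‖T‖⁻¹) ^ k := by positivity
      calc ‖e - y‖ ^ 2 ≤ (‖T‖⁻¹) ^ k * 1 := by
            rw [sq]; exact mul_le_mul h (h.trans h1) (norm_nonneg _) h5
        _ ≤ (‖T‖⁻¹) ^ k * (‖T‖⁻¹ * ‖T‖ ^ 3) := mul_le_mul_of_nonneg_left h4 h5
        _ = _ := by ring
  have : e ∈ closure (Finf T : Set C) := by
    rw [Metric.mem_closure_iff]
    intro r hr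
    obtain ⟨k, hk⟩ := exists_pow_lt_of_lt_one hr (inv_lt_one_of_one_lt₀ hT)
    obtain ⟨y, hy, h⟩ := key k
    exact ⟨y, hy, by rw [dist_eq_norm]; exact h.trans_lt hk⟩
  rwa [Finf_closed.closure_eq] at this

theorem lt [IsAlgClosed C] (T : C) (hT : 1 < ‖T‖) : LT T where
  ev := fun _ hf => norm_aeval hT hf
  lead := fun x hx h0 => by
    obtain ⟨n, hn⟩ := lead hT hx h0
    have hT0 : T ≠ 0 := by rw [← norm_pos_iff]; linarith
    exact ⟨n, by rw [← norm_zpow]; exact (one_div_iff (zpow_ne_zero _ hT0)).1 hn⟩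
  root := root hT

omit [IsUltrametricDist C] in
theorem orth_of {x y : C} {a b : ℕ} (hx : x ^ 2 ^ a = x) (hy : y ^ 2 ^ b = y) (hx2 : x ^ 2 ≠ x)
    (hy2 : y ^ 2 ≠ y) (ha : a ≠ 0) (hb : b ≠ 0) (hab : Nat.Coprime a b) : Orth x y := by
  haveI : CharP C 2 := charTwo
  have fix : ∀ (t : C) (k l : ℕ), t ^ 2 ^ k = t → t ^ 2 ^ (k * l) = t := by
    intro t k l h
    induction l with
    | zero => simp
    | succ l ih => rw [Nat.mul_succ, pow_add, pow_mul, ih, h]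
  have nrm1 : ∀ (t : C) (k : ℕ), k ≠ 0 → t ^ 2 ^ k = t → t ≠ 0 → ‖t‖ = 1 := by
    intro t k hk h h0
    have h1 : 1 < 2 ^ k := Nat.one_lt_two_pow hk
    refine norm_of_pow (k := 2 ^ k - 1) (by omega) (mul_right_cancel₀ h0 ?_)
    rw [← pow_succ, Nat.sub_add_cancel h1.le, h, one_mul]
  have hx0 : x ≠ 0 := by rintro rfl; simp at hx2
  have hy0 : y ≠ 0 := by rintro rfl; simp at hy2
  have hy1 : y + 1 ≠ 0 := by
    intro h
    apply hy2
    linear_combination y * h - y * (two_eq (C := C))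
  refine ⟨nrm1 x a ha hx hx0, nrm1 y b hb hy hy0, fun M hM hM0 => ?_⟩
  have hf : ∀ i j k, M i j ^ 2 ^ k = M i j := fun i j k => by
    rcases hM i j with h | h <;> simp [h]
  have lin : ∀ i k, y ^ 2 ^ k = y → (M i 0 * y + M i 1) ^ 2 ^ k = M i 0 * y + M i 1 :=
    fun i k h => by rw [add_pow_char_pow, mul_pow, hf, hf, h]
  have lin0 : ∀ i, M i 0 * y + M i 1 = 0 → M i 0 = 0 ∧ M i 1 = 0 := by
    intro i h
    rcases hM i 0 with h1 | h1 <;> rcases hM i 1 with h2 | h2 <;> simp_all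
  refine nrm1 _ (a * b) (mul_ne_zero ha hb) ?_ fun h => ?_
  · have hy' := fix y b a hy
    rw [mul_comm] at hy'
    unfold QQ
    rw [sub_pow_char_pow, mul_pow, fix x a b hx, lin _ _ hy', lin _ _ hy']
  · unfold QQ at h
    by_cases hd : M 1 0 * y + M 1 1 = 0
    · rw [hd, mul_zero, zero_sub, neg_eq_zero] at h
      apply hM0
      ext i j
      fin_cases i <;> fin_cases j
      exacts [(lin0 0 h).1, (lin0 0 h).2, (lin0 1 hd).1, (lin0 1 hd).2]
    · have e1 : x = (M 0 0 * y + M 0 1) / (M 1 0 * y + M 1 1) := by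
        rw [eq_div_iff hd]; exact sub_eq_zero.1 h
      have e2 : x ^ 2 ^ b = x := by rw [e1, div_pow, lin _ _ hy, lin _ _ hy]
      apply hx2
      by_cases hb1 : b = 1
      · simpa [hb1] using e2
      obtain ⟨m, hm⟩ := Nat.exists_mul_mod_eq_one_of_coprime hab (by omega)
      have e3 := fix x a m hx
      rw [← Nat.div_add_mod (a * m) b, hm.2, pow_add, pow_mul, fix x b _ e2] at e3
      simpa using e3

omit [IsUltrametricDist C] in
theorem exists_orth [IsAlgClosed C] :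
    ∃ w z z' : C, Orth z w ∧ Orth z' w ∧ Orth z' z ∧ Orth (z ^ 2) (w ^ 2) := by
  have h2 : (2 : C) = 0 := two_eq
  obtain ⟨w, hw⟩ := IsAlgClosed.exists_root (X ^ 3 + X + 1 : C[X]) (by
    have : (X ^ 3 + X + 1 : C[X]).degree = 3 := by compute_degree!
    rw [this]; norm_num)
  obtain ⟨z, hz⟩ := IsAlgClosed.exists_root (X ^ 2 + X + 1 : C[X]) (by
    have : (X ^ 2 + X + 1 : C[X]).degree = 2 := by compute_degree!
    rw [this]; norm_num)
  obtain ⟨y, hy⟩ := IsAlgClosed.exists_root (X ^ 5 + X ^ 2 + 1 : C[X]) (by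
    have : (X ^ 5 + X ^ 2 + 1 : C[X]).degree = 5 := by compute_degree!
    rw [this]; norm_num)
  simp only [IsRoot.def, eval_add, eval_pow, eval_X, eval_one] at hw hz hy
  haveI : CharP C 2 := charTwo
  have w8 : w ^ 2 ^ 3 = w := by
    linear_combination (w + w ^ 2 + w ^ 3 + w ^ 5) * hw -
      (w + w ^ 2 + w ^ 3 + w ^ 4 + w ^ 5 + w ^ 6) * h2
  have z4 : z ^ 2 ^ 2 = z := by linear_combination (z ^ 2 - z) * hz
  have y32 : y ^ 2 ^ 5 = y := by
    linear_combination (y + y ^ 3 + y ^ 5 + y ^ 6 + y ^ 7 + y ^ 9 + y ^ 10 + y ^ 14 + y ^ 15 +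
      y ^ 16 + y ^ 17 + y ^ 18 + y ^ 21 + y ^ 22 + y ^ 24 + y ^ 27) * hy - (y + y ^ 3 + y ^ 5 +
      y ^ 6 + y ^ 7 + y ^ 8 + y ^ 9 + y ^ 10 + y ^ 11 + y ^ 12 + y ^ 14 + y ^ 15 + y ^ 16 + y ^ 17 +
      y ^ 18 + y ^ 19 + y ^ 20 + y ^ 21 + y ^ 22 + y ^ 23 + y ^ 24 + y ^ 26 + y ^ 27 + y ^ 29) * h2
  have ne : ∀ t : C, t ^ 2 = t → t = 0 ∨ t = 1 := fun t h => by
    have : t * (t - 1) = 0 := by linear_combination h
    rcases mul_eq_zero.1 this with h | h
    exacts [Or.inl h, Or.inr (sub_eq_zero.1 h)]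
  have h3 : (1 : C) + 1 + 1 ≠ 0 := by
    intro h
    have : (1 : C) = 0 := by linear_combination h - h2
    exact one_ne_zero this
  have wn : w ^ 2 ≠ w := fun h => by rcases ne w h with rfl | rfl <;> simp_all
  have zn : z ^ 2 ≠ z := fun h => by rcases ne z h with rfl | rfl <;> simp_all
  have yn : y ^ 2 ≠ y := fun h => by rcases ne y h with rfl | rfl <;> simp_all
  have sq : ∀ (t : C) (k : ℕ), t ^ 2 ^ k = t → (t ^ 2) ^ 2 ^ k = t ^ 2 := fun t k h => by
    rw [← pow_mul, mul_comm, pow_mul, h]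
  have sn : ∀ t : C, t ^ 2 ≠ t → (t ^ 2) ^ 2 ≠ t ^ 2 := fun t h h' => by
    apply h
    have : (t ^ 2 - t) ^ 2 = 0 := by rw [sub_pow_char, h', sub_self]
    exact sub_eq_zero.1 (pow_eq_zero_iff two_ne_zero |>.1 this)
  exact ⟨w, z, y, orth_of z4 w8 zn wn (by norm_num) (by norm_num) (by norm_num),
    orth_of y32 w8 yn wn (by norm_num) (by norm_num) (by norm_num),
    orth_of y32 z4 yn zn (by norm_num) (by norm_num) (by norm_num),
    orth_of (sq _ _ z4) (sq _ _ w8) (sn _ zn) (sn _ wn) (by norm_num) (by norm_num) (by norm_num)⟩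

omit [IsUltrametricDist C] [Algebra (ZMod 2) C] in
theorem le_nrm (M : M2 C) (i j : Fin 2) : ‖M i j‖ ≤ nrm M := by
  unfold nrm
  fin_cases i <;> fin_cases j <;> simp

theorem orth_lead (hT : 1 < ‖T‖) (M : M2 C) (hM : ∀ i j, M i j ∈ Finf T) (h0 : M ≠ 0) :
    ∃ (n : ℤ) (M0 : M2 C), (∀ i j, M0 i j = 0 ∨ M0 i j = 1) ∧ M0 ≠ 0 ∧ nrm M = ‖T‖ ^ n ∧
      ∀ x y : C, ‖x‖ = 1 → ‖y‖ = 1 → ‖QQ M x y - T ^ n * QQ M0 x y‖ < ‖T‖ ^ n := by
  classical
  have hT0 : T ≠ 0 := by rw [← norm_pos_iff]; linarith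
  obtain ⟨i, j, hij⟩ : ∃ i j, nrm M = ‖M i j‖ := by
    unfold nrm
    simp only [max_def]
    split_ifs <;> exact ⟨_, _, rfl⟩
  have hne : M i j ≠ 0 := by
    intro h
    apply h0
    ext k l
    have := le_nrm M k l
    rw [hij, h, norm_zero] at this
    exact norm_le_zero_iff.1 this
  obtain ⟨n, hn⟩ := norm_zpow_of_mem hT (hM i j) hne
  have hp : 0 < ‖T‖ ^ n := by positivity
  refine ⟨n, Matrix.of fun k l => if ‖M k l‖ = ‖T‖ ^ n then 1 else 0, fun k l => ?_, fun h => ?_,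
    hij.trans hn, fun x y hx hy => ?_⟩
  · simp only [Matrix.of_apply]; split_ifs <;> simp
  · have := congrFun (congrFun h i) j
    simp [hn] at this
  · set M0 : M2 C := Matrix.of fun k l => if ‖M k l‖ = ‖T‖ ^ n then 1 else 0 with hM0
    have hd : ∀ k l, ‖M k l - T ^ n * M0 k l‖ < ‖T‖ ^ n := by
      intro k l
      simp only [hM0, Matrix.of_apply]
      split_ifs with h
      · rw [mul_one, ← norm_zpow]
        exact sub_lt_of_norm_eq hT (hM k l) (zpow_mem T_mem n) (zpow_ne_zero _ hT0)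
          (by rw [h, norm_zpow])
      · rw [mul_zero, sub_zero]
        exact lt_of_le_of_ne (by rw [← hn, ← hij]; exact le_nrm M k l) h
    have e : QQ M x y - T ^ n * QQ M0 x y = (x * y * (M 1 0 - T ^ n * M0 1 0) +
        x * (M 1 1 - T ^ n * M0 1 1)) + (-(y * (M 0 0 - T ^ n * M0 0 0)) +
          -(M 0 1 - T ^ n * M0 0 1)) := by unfold QQ; ring
    rw [e]
    refine (IsUltrametricDist.norm_add_le_max _ _).trans_lt (max_lt
      ((IsUltrametricDist.norm_add_le_max _ _).trans_lt (max_lt ?_ ?_))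
      ((IsUltrametricDist.norm_add_le_max _ _).trans_lt (max_lt ?_ ?_))) <;>
    simp only [norm_mul, norm_neg, hx, hy, one_mul, hd]

theorem orth_norm (hT : 1 < ‖T‖) {x y : C} (h : Orth x y) (M : M2 C)
    (hM : ∀ i j, M i j ∈ Finf T) : ‖QQ M x y‖ = nrm M := by
  by_cases h0 : M = 0
  · simp [h0, QQ, nrm]
  obtain ⟨n, M0, h1, h2, h3, h4⟩ := orth_lead hT M hM h0
  have e : ‖T ^ n * QQ M0 x y‖ = ‖T‖ ^ n := by rw [norm_mul, h.2.2 M0 h1 h2, mul_one, norm_zpow]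
  rw [h3, ← e]
  exact norm_eq_of_sub_lt (by rw [e]; exact h4 x y h.1 h.2.1)

theorem orth_adm (hT : 1 < ‖T‖) {x y : C} (h : Orth x y) :
    x ∉ Finf T ∧ y ∉ Finf T ∧ ∀ g : MK T, mob g.1 y ≠ x := by
  have ne : ∀ M : M2 C, (∀ i j, M i j ∈ Finf T) → QQ M x y = 0 → ∀ i j, M i j = 0 := by
    intro M hM h0 i j
    have := le_nrm M i j
    rw [← orth_norm hT h M hM, h0, norm_zero] at this
    exact norm_le_zero_iff.1 this
  have hy : y ∉ Finf T := fun hy => by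
    have := ne !![0, 0; 1, -y] (fun i j => by
      fin_cases i <;> fin_cases j <;> simp [hy]) (by simp [QQ]) 1 0
    simp at this
  refine ⟨fun hx => ?_, hy, fun g hg => ?_⟩
  · have := ne !![0, x; 0, 1] (fun i j => by
      fin_cases i <;> fin_cases j <;> simp [hx]) (by simp [QQ]) 1 1
    simp at this
  · have hd := InE.den ⟨g.2.1, g.2.2⟩ hy
    have := ne g.1 g.2.1 (by
      unfold QQ
      rw [← hg, mob, div_mul_cancel₀ _ hd, sub_self])
    apply g.2.2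
    rw [Matrix.det_fin_two, this 0 0, this 0 1]; ring

theorem orth [IsAlgClosed C] (T : C) (hT : 1 < ‖T‖) : ORTH T where
  ex := exists_orth
  lead := orth_lead hT
  norm := fun _ _ h => orth_norm hT h
  adm := fun _ _ h => orth_adm hT h

end Pool.Agent.MP_a88b1d_nt.H92
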