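import Pool.Agent.MP_a88b1d_nt.H92.DgGram
import Pool.Agent.MP_a88b1d_nt.H92.Lt
import Pool.Agent.MP_a88b1d_nt.H94.Pm

/-! Row DG59: the quotient graph of the unit group of the quaternion order. -/

noncomputable section

namespace Pool.Agent.MP_a88b1d_nt.H92.Dg

open H42 Polynomial

def tM (x : N4) : M2 A := !![ofN x.a, ofN x.b; ofN x.c, ofN x.d]

def tQ (x : N4) : Quat A := ⟨ofN x.a, ofN x.b, ofN x.c, ofN x.d⟩

theorem ofN_cm (a b : ℕ) : ofN (cm a b) = ofN a * ofN b := ofN_clmul _ _ _ Nat.lt_log2_self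

theorem negA (f : A) : -f = f := CharTwo.neg_eq f

theorem tM_mm (x y : N4) : tM (mm x y) = tM x * tM y := by
  simp only [tM, mm, ofN_xor, ofN_cm, Matrix.mul_fin_two]

theorem tM_adj (x : N4) : tM (adj x) = (tM x).adjugate := by
  simp only [tM, adj, Matrix.adjugate_fin_two_of, negA]

theorem tM_det (x : N4) : (tM x).det = ofN (det x) := by
  simp only [tM, det, Matrix.det_fin_two_of, ofN_xor, ofN_cm, sub_eq_add_neg, negA]

theorem tM_one : tM one = 1 := by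
  simp only [tM, one, ofN_zero, ofN_one, Matrix.one_fin_two]

theorem tQ_one : tQ ⟨1, 0, 0, 0⟩ = 1 := by
  simp only [tQ, ofN_zero, ofN_one]; rfl

theorem ofN_two : ofN 2 = X := by simpa using ofN_two_pow 1

theorem tM_st (k : Fin 3) : tM (sN k) = stA k := by
  fin_cases k <;> simp [tM, sN, stA, ofN_zero, ofN_one, ofN_two, Nat.beq]

theorem tM_p0 (x : N4) : tM (p0 x) = P0 (tQ x) := by
  simp only [tM, p0, P0, tQ, ofN_xor, ofN_shiftLeft]
  ext1 i j
  fin_cases i <;> fin_cases j <;> simp <;> ring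

theorem tM_p1 (x : N4) : tM (p1 x) = P1 (tQ x) := by
  simp only [tM, p1, P1, tQ, ofN_xor, ofN_shiftLeft]
  ext1 i j
  fin_cases i <;> fin_cases j <;> simp <;> ring

theorem nrd_tQ (x : N4) : nrd (tQ x) = ofN (nr x) := by
  simp only [nrd, tQ, nr, nf, ofN_xor, ofN_shiftLeft, ofN_cm, nn_eq]
  ring

theorem star_tQ (x y : N4) (ha : y.a = x.a ^^^ x.b) (hb : y.b = x.b) (hc : y.c = x.c)
    (hd : y.d = x.d) : tQ y = star (tQ x) := by
  simp only [tQ, ha, hb, hc, hd, ofN_xor, QuaternionAlgebra.star_mk, negA, one_mul]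

theorem ofN_app (P Q : ℕ) : ofN (app P Q) = ofN P * X ^ 16 + ofN Q * ofN (app 0 1) := by
  simp only [app, ofN_xor, ofN_shiftLeft, ofN_zero, ofN_one]
  ring

variable {C : Type} [NontriviallyNormedField C] [IsUltrametricDist C] [Algebra (ZMod 2) C]
  {T e : C}

theorem ev_le (hT : 1 < ‖T‖) {a k : ℕ} (h : a < 2 ^ (k + 1)) : ‖aeval T (ofN a)‖ ≤ ‖T‖ ^ k := by
  by_cases h0 : ofN a = 0
  · rw [h0, map_zero, norm_zero]; positivity
  · rw [norm_aeval hT h0]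
    exact pow_le_pow_right₀ hT.le (natDegree_ofN_le h)

theorem le_ev (hT : 1 < ‖T‖) {a k : ℕ} (h : 2 ^ k ≤ a) : ‖T‖ ^ k ≤ ‖aeval T (ofN a)‖ := by
  rw [norm_aeval hT (le_natDegree_ofN h).2]
  exact pow_le_pow_right₀ hT.le (le_natDegree_ofN h).1

theorem del_lt (hT : 1 < ‖T‖) (he : e ^ 2 + T ^ 3 * e = T + 1) (hs : ‖e‖ < 1) :
    ‖T ^ 16 * e + aeval T (ofN (app 0 1))‖ < 1 := by
  have h2 : (2 : C) = 0 := two_eq
  have h3 : ofN 3 = X + 1 := by
    have : (3 : ℕ) = 2 ^^^ 1 := by decide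
    rw [this, ofN_xor, ofN_two, ofN_one]
  have hR := ev_le hT (k := 18) runE.2
  have hE := ev_le hT (k := 15) runE.1
  rw [ofN_xor, ofN_xor, ofN_shiftLeft, ofN_shiftLeft, ofN_cm, h3] at hR
  simp only [map_add, map_mul, map_pow, aeval_X, map_one] at hR
  generalize aeval T (ofN (app 0 1)) = E at hR hE ⊢
  have e1 : (T + 1) * T ^ 32 + E * E + E * T ^ 19 =
      (T ^ 16 * e + E) * (T ^ 19 + (T ^ 16 * e + E)) := by
    linear_combination (-T ^ 32) * he - (T ^ 16 * e * E) * h2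
  have p : ∀ a b : ℕ, a < b → ‖T‖ ^ a < ‖T‖ ^ b := fun a b h => pow_lt_pow_right₀ hT h
  have p0 : (0 : ℝ) < ‖T‖ ^ 16 := by positivity
  have h4 : ‖T ^ 16 * e + E‖ < ‖T ^ 19‖ := by
    refine (IsUltrametricDist.norm_add_le_max _ _).trans_lt (max_lt ?_ ?_)
    · rw [norm_mul, norm_pow, norm_pow]
      exact (mul_lt_of_lt_one_right p0 hs).trans (p _ _ (by norm_num))
    · rw [norm_pow]; exact hE.trans_lt (p _ _ (by norm_num))
  rw [e1, norm_mul, norm_add_of_lt h4, norm_pow] at hR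
  by_contra hc
  have p1 : (0 : ℝ) < ‖T‖ ^ 19 := by positivity
  have := le_mul_of_one_le_left p1.le (not_lt.1 hc)
  linarith [p 18 19 (by norm_num)]

omit [IsUltrametricDist C] in
theorem split (T e : C) (P Q : ℕ) : T ^ 16 * (aeval T (ofN P) + e * aeval T (ofN Q)) =
    aeval T (ofN (app P Q)) + (T ^ 16 * e + aeval T (ofN (app 0 1))) * aeval T (ofN Q) := by
  have h2 : (2 : C) = 0 := two_eq
  rw [ofN_app P Q]
  simp only [map_add, map_mul, map_pow, aeval_X]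
  linear_combination (-(aeval T (ofN Q) * aeval T (ofN (app 0 1)))) * h2

theorem err_lt (hT : 1 < ‖T‖) (he : e ^ 2 + T ^ 3 * e = T + 1) (hs : ‖e‖ < 1) {Q r : ℕ}
    (h : Q < 2 ^ (r + 17)) :
    ‖(T ^ 16 * e + aeval T (ofN (app 0 1))) * aeval T (ofN Q)‖ < ‖T‖ ^ (r + 16) := by
  rw [norm_mul]
  have p : (0 : ℝ) < ‖T‖ ^ (r + 16) := by positivity
  exact (mul_le_mul_of_nonneg_left (ev_le hT (k := r + 16) h) (norm_nonneg _)).trans_lt
    (mul_lt_of_lt_one_left p (del_lt hT he hs))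

theorem up1_ok (hT : 1 < ‖T‖) (he : e ^ 2 + T ^ 3 * e = T + 1) (hs : ‖e‖ < 1) {r P Q : ℕ}
    (h : up1 r P Q = true) : ‖aeval T (ofN P) + e * aeval T (ofN Q)‖ ≤ ‖T‖ ^ r := by
  simp only [up1, Bool.and_eq_true, Nat.blt_eq] at h
  have h1 := (IsUltrametricDist.norm_add_le_max _ _).trans
    (max_le (ev_le hT (k := r + 16) h.1) (err_lt hT he hs h.2).le)
  rw [← split, norm_mul, norm_pow, pow_add, mul_comm] at h1
  exact le_of_mul_le_mul_right h1 (by positivity)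

theorem lo1_ok (hT : 1 < ‖T‖) (he : e ^ 2 + T ^ 3 * e = T + 1) (hs : ‖e‖ < 1) {r P Q : ℕ}
    (h : lo1 r P Q = true) : ‖T‖ ^ r ≤ ‖aeval T (ofN P) + e * aeval T (ofN Q)‖ := by
  simp only [lo1, Bool.and_eq_true, Nat.blt_eq, Nat.ble_eq] at h
  have h1 := le_ev hT h.1
  have h2 := norm_add_of_lt ((err_lt hT he hs h.2).trans_le h1)
  rw [← h2, ← split, norm_mul, norm_pow, pow_add, mul_comm _ ‖_ + _‖] at h1
  exact le_of_mul_le_mul_right h1 (by positivity)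

variable {ι : Quat A →+* M2 C}

omit [IsUltrametricDist C] in
theorem prod_eq (hs : StdEmb T e ι) (H q G : N4) :
    (evM T (tM H)).adjugate * (ι (tQ q) * evM T (tM G)) =
      evM T (tM (mm (mm (adj H) (p0 q)) G)) + e • evM T (tM (mm (mm (adj H) (p1 q)) G)) := by
  simp only [tM_mm, tM_adj, tM_p0, tM_p1, H94.evM_mul, hs.val, io, H94.evM_adj, mul_add, add_mul,
    Matrix.mul_smul, Matrix.smul_mul, mul_assoc]

theorem spec_eq (ht : TREE T) (hs : StdEmb T e ι) {H q G : N4} {m m' : ℕ}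
    (hH : det H = 2 ^ m) (hG : det G = 2 ^ m') (hq : nr q = 1) {x y : MK T}
    (hx : x.1 = evM T (tM H)) (hy : y.1 = ι (tQ q) * evM T (tM G)) :
    ‖T‖ ^ (dd T x y + m + m') = nrm (evM T (tM (mm (mm (adj H) (p0 q)) G)) +
      e • evM T (tM (mm (mm (adj H) (p1 q)) G))) ^ 2 := by
  have h := ht.spec x y
  rw [hx, hy, prod_eq hs, Matrix.det_mul, hs.det, H94.evM_det, H94.evM_det, tM_det, tM_det,
    nrd_tQ, hH, hG, hq, ofN_one, ofN_two_pow, ofN_two_pow] at h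
  simp only [map_pow, aeval_X, map_one, one_mul, norm_pow] at h
  rw [← h, pow_add, pow_add, mul_assoc]

theorem up_ok (hT : 1 < ‖T‖) (ht : TREE T) (hs : StdEmb T e ι) {H q G : N4} {m m' r : ℕ}
    (hH : det H = 2 ^ m) (hG : det G = 2 ^ m') (hq : nr q = 1) {x y : MK T}
    (hx : x.1 = evM T (tM H)) (hy : y.1 = ι (tQ q) * evM T (tM G)) (h : up r H q G = true) :
    dd T x y + m + m' ≤ 2 * r := by
  rw [← pow_le_pow_iff_right₀ hT, spec_eq ht hs hH hG hq hx hy]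
  unfold up up2 at h
  simp only [Bool.and_eq_true] at h
  refine H94.nrm_sq_le _ _ fun i j => ?_
  rw [mul_comm, pow_mul]
  refine pow_le_pow_left₀ (norm_nonneg _) ?_ 2
  fin_cases i <;> fin_cases j
  exacts [up1_ok hT hs.eqn hs.small h.1.1.1, up1_ok hT hs.eqn hs.small h.1.1.2,
    up1_ok hT hs.eqn hs.small h.1.2, up1_ok hT hs.eqn hs.small h.2]

theorem lo_ok (hT : 1 < ‖T‖) (ht : TREE T) (hs : StdEmb T e ι) {H q G : N4} {m m' r : ℕ}
    (hH : det H = 2 ^ m) (hG : det G = 2 ^ m') (hq : nr q = 1) {x y : MK T}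
    (hx : x.1 = evM T (tM H)) (hy : y.1 = ι (tQ q) * evM T (tM G)) (h : lo r H q G = true) :
    2 * r ≤ dd T x y + m + m' := by
  rw [← pow_le_pow_iff_right₀ hT, spec_eq ht hs hH hG hq hx hy, mul_comm, pow_mul]
  refine pow_le_pow_left₀ (by positivity) ?_ 2
  unfold lo lo2 at h
  simp only [Bool.or_eq_true] at h
  rcases h with ((h | h) | h) | h
  · refine le_trans ?_ (H94.le_nrm _ 0 0)
    exact lo1_ok hT hs.eqn hs.small h
  · refine le_trans ?_ (H94.le_nrm _ 0 1)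
    exact lo1_ok hT hs.eqn hs.small h
  · refine le_trans ?_ (H94.le_nrm _ 1 0)
    exact lo1_ok hT hs.eqn hs.small h
  · refine le_trans ?_ (H94.le_nrm _ 1 1)
    exact lo1_ok hT hs.eqn hs.small h

theorem pm_val (hT : 1 < ‖T‖) (g : M2 A) (hg : g.det ≠ 0) : (pm T g).1 = evM T g := by
  have : evM T g ∈ MK T := ⟨fun i j => aeval_mem_Finf T (g i j), by
    rw [H94.evM_det, ← norm_pos_iff, norm_aeval hT hg]; positivity⟩
  unfold pm
  rw [dif_pos this]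

open Classical in
def gam (hs : StdEmb T e ι) (n : ℕ) : (Quat A)ˣ :=
  if h : nrd (tQ (gq n)) = 1 then ⟨tQ (gq n), star (tQ (gq n)), (hs.star _ h).1, (hs.star _ h).2⟩
  else 1

theorem chkV_ok {j : ℕ} (hj : j < 126) : det (vg j) = 2 ^ vm j ∧
    up ((vm j + 8) / 2) one ⟨1, 0, 0, 0⟩ (vg j) = true := by
  have h := allTo_iff runV j hj
  unfold chkV at h
  rwa [Bool.and_eq_true, Nat.beq_eq] at h

theorem chkR_ok {n : ℕ} (hn : n < 378) : tgt n < 126 ∧ rev n < 378 ∧ rev (rev n) = n ∧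
    rev n / 3 = tgt n ∧ nr (gq n) = 1 ∧ tQ (gq (rev n)) = star (tQ (gq n)) := by
  have h := allTo_iff runR n hn
  unfold chkR at h
  simp only [Bool.and_eq_true, Nat.beq_eq, Nat.blt_eq] at h
  obtain ⟨⟨⟨⟨⟨⟨⟨⟨h1, h2⟩, h3⟩, h4⟩, h5⟩, h6⟩, h7⟩, h8⟩, h9⟩ := h
  exact ⟨h1, h2, h3, h4, h5, star_tQ _ _ h6 h7 h8 h9⟩

omit [IsUltrametricDist C] in
theorem gam_val (hs : StdEmb T e ι) {n : ℕ} (hn : n < 378) : (gam hs n).1 = tQ (gq n) := by
  unfold gam
  rw [dif_pos (by rw [nrd_tQ, (chkR_ok hn).2.2.2.2.1, ofN_one])]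

theorem g_val (hT : 1 < ‖T‖) {j : ℕ} (hj : j < 126) :
    (pm T (tM (vg j))).1 = evM T (tM (vg j)) :=
  pm_val hT _ (by rw [tM_det, (chkV_ok hj).1, ofN_two_pow]; exact pow_ne_zero _ X_ne_zero)

theorem st_val (hT : 1 < ‖T‖) (k : Fin 3) : (st T k).1 = evM T (tM (sN k)) := by
  rw [tM_st]
  refine pm_val hT _ ?_
  fin_cases k <;> simp [stA, Matrix.det_fin_two]

theorem step_ok (hT : 1 < ‖T‖) (ht : TREE T) (hs : StdEmb T e ι) (n : ℕ) (hn : n < 378) :
    dd T (pm T (tM (vg (n / 3))) * st T (kk n))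
      (rD hs.emb (gam hs n) * pm T (tM (vg (tgt n)))) = 0 := by
  have h := allTo_iff runS n hn
  unfold chkS at h
  rw [Bool.and_eq_true, Nat.beq_eq] at h
  have hr := chkR_ok hn
  have := up_ok hT ht hs h.1 (chkV_ok hr.1).1 hr.2.2.2.2.1
    (x := pm T (tM (vg (n / 3))) * st T (kk n))
    (y := rD hs.emb (gam hs n) * pm T (tM (vg (tgt n))))
    (by rw [Submonoid.coe_mul, g_val hT (by omega), st_val hT, tM_mm, H94.evM_mul]; rfl)
    (by rw [Submonoid.coe_mul, g_val hT hr.1, rD_val, gam_val hs hn]) h.2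
  omega

theorem base_ok (hT : 1 < ‖T‖) (ht : TREE T) (hs : StdEmb T e ι) (a : (Quat A)ˣ) (j : ℕ)
    (hj : j < 126) (h : dd T 1 (rD hs.emb a * pm T (tM (vg j))) = 0) : a = 1 ∧ j = 0 := by
  have d1 : det one = 2 ^ 0 := by decide
  have x1 : (1 : MK T).1 = evM T (tM one) := by rw [tM_one, H94.evM_one]; rfl
  have hv := chkV_ok hj
  have h1 := up_ok hT ht hs d1 hv.1 (q := ⟨1, 0, 0, 0⟩) (by decide) (y := pm T (tM (vg j))) x1
    (by rw [tQ_one, map_one, one_mul, g_val hT hj]) hv.2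
  have h2 := ht.tree.tri 1 (rD hs.emb a * pm T (tM (vg j))) (rD hs.emb a * 1)
  rw [h, ht.tree.inv, ht.tree.comm _ 1, mul_one] at h2
  have h3 := ht.spec 1 (rD hs.emb a)
  rw [hs.good.1 a, OneMemClass.coe_one, Matrix.det_one, Matrix.adjugate_one, one_mul, norm_one,
    mul_one, mul_one, rD_val] at h3
  have h4 : nrm (ι a.1) ≤ ‖T‖ ^ 4 := by
    refine (pow_le_pow_iff_left₀ (H94.nrm_nonneg _) (by positivity) two_ne_zero).1 ?_
    rw [← h3, ← pow_mul]
    exact pow_le_pow_right₀ hT.le (by omega)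
  obtain ⟨b1, b2, b3, b4⟩ := hs.box _ h4
  obtain ⟨a1, ha1, e1⟩ := exists_ofN (k := 5) b1
  obtain ⟨a2, ha2, e2⟩ := exists_ofN (k := 5) b2
  obtain ⟨a3, ha3, e3⟩ := exists_ofN (k := 2) b3
  obtain ⟨a4, ha4, e4⟩ := exists_ofN (k := 1) b4
  have hb := runB
  unfold chkB at hb
  have hu := allTo_iff (allTo_iff (allTo_iff (allTo_iff hb a3 ha3) a4 ha4) a2 ha2) a1 ha1
  have ea : tQ ⟨a1 ^^^ (a3 ^^^ a4) <<< 4, a2, a3, a4⟩ = a.1 := by
    simp only [tQ, ofN_xor, ofN_shiftLeft, e1, e2, e3, e4, add_assoc, add_self_A, add_zero]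
  generalize (⟨a1 ^^^ (a3 ^^^ a4) <<< 4, a2, a3, a4⟩ : N4) = q at hu ea
  have hq : nr q = 1 := ofN_injective (by rw [← nrd_tQ, ea, hs.unit, ofN_one])
  unfold chkU at hu
  rw [hq, Nat.beq_refl, Bool.not_true, Bool.false_or] at hu
  have h5 := allTo_iff hu j hj
  simp only [Bool.or_eq_true, Bool.and_eq_true, Nat.beq_eq] at h5
  rcases h5 with ⟨⟨⟨⟨c1, c2⟩, c3⟩, c4⟩, c5⟩ | h5
  · refine ⟨Units.ext ?_, c5⟩
    rw [← ea, Units.val_one, ← tQ_one]
    simp only [tQ, c1, c2, c3, c4]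
  · have := lo_ok hT ht hs d1 hv.1 hq (y := rD hs.emb a * pm T (tM (vg j))) x1
      (by rw [Submonoid.coe_mul, g_val hT hj, rD_val, ea]) h5
    omega

theorem qgraph (hT : 1 < ‖T‖) (ht : TREE T) (hs : StdEmb T e ι) :
    QGraph (dd T) (st T) (rD hs.emb) 126 (fun j => pm T (tM (vg j))) tgt rev (gam hs) where
  g0 := Subtype.ext (by rw [g_val hT (by norm_num), vg0, tM_one, H94.evM_one]; rfl)
  pos := by norm_num
  tgt_lt := fun _ hn => (chkR_ok hn).1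
  rev_lt := fun _ hn => (chkR_ok hn).2.1
  rev_rev := fun _ hn => (chkR_ok hn).2.2.1
  src_rev := fun _ hn => (chkR_ok hn).2.2.2.1
  gam_rev := fun n hn => Units.ext (by
    have hr := chkR_ok hn
    rw [Units.val_mul, gam_val hs hn, gam_val hs hr.2.1, hr.2.2.2.2.2]
    exact (hs.star _ (by rw [nrd_tQ, hr.2.2.2.2.1, ofN_one])).1)
  step := step_ok hT ht hs
  base := base_ok hT ht hs

end Dg

theorem dg59 {C : Type} [NontriviallyNormedField C] [IsUltrametricDist C] [Algebra (ZMod 2) C]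
    (T : C) (hT : 1 < ‖T‖) (ht : H42.TREE T) : H42.DG59 T := fun _ _ hs =>
  ⟨_, _, _, _, fun i => Dg.wl i, Dg.qgraph hT ht hs, fun i => Dg.walks i i.2, Dg.gram_ok⟩

end Pool.Agent.MP_a88b1d_nt.H92
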