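import Pool.Agent.MP_a88b1d_nt.H92.DgData
import Pool.Agent.MP_a88b1d_nt.H42.Spec

/-! The walks and their pairing matrix. -/

namespace Pool.Agent.MP_a88b1d_nt.H92.Dg

open H42 Finset

theorem allTo_iff {n : ℕ} {p : ℕ → Bool} (h : allTo n p = true) : ∀ k, k < n → p k = true := by
  induction n with
  | zero => intro k hk; omega
  | succ n ih =>
    have e : allTo (n + 1) p = (p n && allTo n p) := rfl
    rw [e, Bool.and_eq_true] at h
    intro k hk
    rcases Nat.lt_succ_iff_lt_or_eq.1 hk with h1 | rfl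
    · exact ih h.2 k h1
    · exact h.1

theorem sumTo_eq (n : ℕ) (f : ℕ → ℕ) : sumTo n f = ∑ i ∈ range n, f i := by
  induction n with
  | zero => rfl
  | succ n ih => rw [sum_range_succ, ← ih]; rfl

theorem walk_of (l : List ℕ) : ∀ j, wk j l = true → Walk 126 tgt j l 0 := by
  induction l with
  | nil => intro j h; simpa [wk, Walk] using h
  | cons e l ih =>
    intro j h
    simp only [wk, Bool.and_eq_true, Nat.blt_eq, Nat.beq_eq] at h
    exact ⟨h.1.1, h.1.2, ih _ h.2⟩

theorem bit_eq (m e : ℕ) : m >>> e % 2 = if m.testBit e then 1 else 0 := by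
  rw [Nat.shiftRight_eq_div_pow, ← Nat.toNat_testBit]
  cases m.testBit e <;> rfl

theorem mask_bit (l : List ℕ) (e : ℕ) : (mask l).testBit e = decide (e ∈ l) := by
  induction l with
  | nil => simp [mask]
  | cons a l ih =>
    rw [mask, Nat.testBit_or, ih, Nat.testBit_two_pow]
    simp [eq_comm]

theorem mask_val (l : List ℕ) (e : ℕ) : mask l >>> e % 2 = if e ∈ l then 1 else 0 := by
  rw [bit_eq, mask_bit]; simp

theorem nodup_of (l : List ℕ) (h : nd l = true) : l.Nodup := by
  induction l with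
  | nil => exact List.nodup_nil
  | cons a l ih =>
    simp only [nd, Bool.and_eq_true, Nat.beq_eq, mask_val] at h
    refine List.nodup_cons.2 ⟨fun ha => ?_, ih h.2⟩
    simp [ha] at h

theorem sum_ite_map (f : ℕ → ℕ) (l : List ℕ) (h : (l.map f).Nodup) (e : ℕ) :
    (l.map fun e' => if e = f e' then (2 : ℤ) else 0).sum = if e ∈ l.map f then 2 else 0 := by
  induction l with
  | nil => simp
  | cons a l ih =>
    rw [List.map_cons, List.nodup_cons] at h
    rw [List.map_cons, List.sum_cons, ih h.2]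
    by_cases h1 : e = f a
    · subst h1; rw [if_pos rfl, if_neg h.1, if_pos (by simp)]; rfl
    · rw [if_neg h1, zero_add]
      simp only [List.map_cons, List.mem_cons, h1, false_or]

theorem sum_map_sub' (f g : ℕ → ℤ) (l : List ℕ) :
    (l.map fun e => f e - g e).sum = (l.map f).sum - (l.map g).sum := by
  induction l with
  | nil => simp
  | cons a l ih => simp only [List.map_cons, List.sum_cons, ih]; ring

theorem gram_eq (l l' : List ℕ) (h : l'.Nodup) (h' : (l'.map rev).Nodup) :
    ((gram rev l l' : ℤ) : ZMod 3) = (sg (mask l') (mask (l'.map rev)) l : ℕ) := by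
  induction l with
  | nil => simp [gram, sg]
  | cons e l ih =>
    unfold gram at ih ⊢
    rw [List.map_cons, List.sum_cons, Int.cast_add, ih, sg, sum_map_sub', sum_ite_map rev l' h',
      mask_val, mask_val]
    have := sum_ite_map id l' (by simpa using h) e
    simp only [id, List.map_id_fun, id_eq] at this
    rw [this, Nat.cast_add]
    congr 1
    split_ifs <;> decide

theorem walks (i : ℕ) (hi : i < 59) : Walk 126 tgt 0 (wl i) 0 := by
  have := allTo_iff runW i hi
  simp only [chkW, Bool.and_eq_true] at this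
  exact walk_of _ _ this.1.1

theorem gram_tb (i j : ℕ) (hi : i < 59) (hj : j < 59) :
    ((gram rev (wl i) (wl j) : ℤ) : ZMod 3) = (tb i j : ℕ) := by
  have h := allTo_iff runW j hj
  simp only [chkW, Bool.and_eq_true] at h
  have h1 := allTo_iff runG j hj
  unfold chkG chkG1 at h1
  have h2 := allTo_iff h1 i hi
  simp only [Nat.beq_eq] at h2
  rw [gram_eq _ _ (nodup_of _ h.1.2) (nodup_of _ h.2), ← h2]
  exact (ZMod.natCast_mod _ 3).symm

theorem inv_tb (r j : Fin 59) :
    ∑ i : Fin 59, ((iv r i : ℕ) : ZMod 3) * (tb i j : ℕ) = if r = j then 1 else 0 := by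
  have h1 := allTo_iff runI r r.2
  unfold chkI at h1
  have h := allTo_iff h1 j j.2
  simp only [Nat.beq_eq, sumTo_eq] at h
  have h2 := congrArg (Nat.cast : ℕ → ZMod 3) h
  rw [ZMod.natCast_mod, Nat.cast_sum, ← Fin.sum_univ_eq_sum_range
    (fun i => ((iv r i * tb i j : ℕ) : ZMod 3)) 59] at h2
  simp only [Nat.cast_mul] at h2
  rw [h2]
  by_cases e : r = j
  · subst e; simp
  · have : Nat.beq r j = false := by
      rw [← Bool.not_eq_true, Nat.beq_eq]; exact fun h => e (Fin.ext h)
    simp [this, e]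

theorem gram_ok (c : Fin 59 → ℤ)
    (h : ∀ i : Fin 59, (3 : ℤ) ∣ ∑ j : Fin 59, c j * gram rev (wl i) (wl j)) (r : Fin 59) :
    (3 : ℤ) ∣ c r := by
  have h1 : ∀ i : Fin 59, ∑ j : Fin 59, (c j : ZMod 3) * (tb i j : ℕ) = 0 := fun i => by
    have := (ZMod.intCast_zmod_eq_zero_iff_dvd _ 3).2 (h i)
    rw [Int.cast_sum] at this
    rw [← this]
    exact sum_congr rfl fun j _ => by rw [Int.cast_mul, gram_tb _ _ i.2 j.2]
  refine (ZMod.intCast_zmod_eq_zero_iff_dvd _ 3).1 ?_
  calc (c r : ZMod 3) = ∑ j : Fin 59, (c j : ZMod 3) * (if r = j then 1 else 0) := by simp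
    _ = ∑ j : Fin 59, ∑ i : Fin 59, ((iv r i : ℕ) : ZMod 3) * ((c j : ZMod 3) * (tb i j : ℕ)) := by
      refine sum_congr rfl fun j _ => ?_
      rw [← inv_tb, mul_sum]
      exact sum_congr rfl fun i _ => by ring
    _ = 0 := by
      rw [sum_comm]
      exact sum_eq_zero fun i _ => by rw [← mul_sum, h1, mul_zero]

end Pool.Agent.MP_a88b1d_nt.H92.Dg
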