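import Pool.Agent.MP_a88b1d_nt.H42.Defs

/-! Moebius action on the complement of a closed subfield, growth estimate. -/

namespace Pool.Agent.MP_a88b1d_nt.H92

open H42

variable {K : Type} [NontriviallyNormedField K]

/-- Cross ratio. -/
def cr (a b c d : K) : K := (a - c) * (b - d) / ((a - d) * (b - c))

/-- Sup norm of a two by two matrix. -/
noncomputable def nm (g : Matrix (Fin 2) (Fin 2) K) : ℝ :=
  max (max ‖g 0 0‖ ‖g 0 1‖) (max ‖g 1 0‖ ‖g 1 1‖)

/-- Invertible matrix with entries in `E`. -/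
structure InE (E : Subfield K) (g : Matrix (Fin 2) (Fin 2) K) : Prop where
  ent : ∀ i j, g i j ∈ E
  det : g.det ≠ 0

variable {E : Subfield K} {g h : Matrix (Fin 2) (Fin 2) K} {z w a b c d : K}

theorem InE.mul (hg : InE E g) (hh : InE E h) : InE E (g * h) :=
  ⟨fun i j => by
    rw [Matrix.mul_apply]
    exact E.sum_mem fun k _ => E.mul_mem (hg.ent _ _) (hh.ent _ _),
   by rw [Matrix.det_mul]; exact mul_ne_zero hg.det hh.det⟩

theorem InE.one : InE E (1 : Matrix (Fin 2) (Fin 2) K) :=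
  ⟨fun i j => by
    rw [Matrix.one_apply]; split_ifs
    exacts [E.one_mem, E.zero_mem], by simp⟩

theorem lin_eq_zero {x y : K} (hz : z ∉ E) (hx : x ∈ E) (hy : y ∈ E) (h : x * z + y = 0) :
    x = 0 ∧ y = 0 := by
  by_cases h0 : x = 0
  · exact ⟨h0, by simpa [h0] using h⟩
  · exfalso
    apply hz
    have : z = -y / x := by field_simp; linear_combination h
    rw [this]
    exact E.div_mem (E.neg_mem hy) hx

theorem InE.den (hg : InE E g) (hz : z ∉ E) : g 1 0 * z + g 1 1 ≠ 0 := by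
  intro h
  obtain ⟨h1, h2⟩ := lin_eq_zero hz (hg.ent _ _) (hg.ent _ _) h
  exact hg.det (by rw [Matrix.det_fin_two, h1, h2]; ring)

theorem InE.mob_notMem (hg : InE E g) (hz : z ∉ E) : mob g z ∉ E := by
  intro h
  have hd := hg.den hz
  have e : (mob g z * g 1 0 - g 0 0) * z + (mob g z * g 1 1 - g 0 1) = 0 := by
    have e0 : mob g z * (g 1 0 * z + g 1 1) = g 0 0 * z + g 0 1 := div_mul_cancel₀ _ hd
    linear_combination e0
  obtain ⟨h1, h2⟩ := lin_eq_zero hz (E.sub_mem (E.mul_mem h (hg.ent _ _)) (hg.ent _ _))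
    (E.sub_mem (E.mul_mem h (hg.ent _ _)) (hg.ent _ _)) e
  apply hg.det
  rw [Matrix.det_fin_two]
  linear_combination (-g 1 1) * h1 + g 1 0 * h2

theorem mob_one (z : K) : mob 1 z = z := by simp [mob]

theorem mob_mul (hg : InE E g) (hh : InE E h) (hz : z ∉ E) :
    mob (g * h) z = mob g (mob h z) := by
  have h1 := hh.den hz
  have h2 := hg.den (hh.mob_notMem hz)
  have h3 := (hg.mul hh).den hz
  unfold mob at *
  simp only [Matrix.mul_apply, Fin.sum_univ_two] at *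
  rw [div_eq_div_iff h3 h2]
  field_simp
  ring

theorem mob_sub (hg : InE E g) (ha : a ∉ E) (hb : b ∉ E) :
    mob g a - mob g b = g.det * (a - b) / ((g 1 0 * a + g 1 1) * (g 1 0 * b + g 1 1)) := by
  have h1 := hg.den ha
  have h2 := hg.den hb
  unfold mob
  rw [Matrix.det_fin_two, div_sub_div _ _ h1 h2]
  congr 1
  ring

theorem mob_inj (hg : InE E g) (ha : a ∉ E) (hb : b ∉ E) (h : mob g a = mob g b) : a = b := by
  have h1 := mob_sub hg ha hb
  rw [h, sub_self, eq_comm, div_eq_zero_iff, mul_eq_zero, mul_eq_zero, sub_eq_zero] at h1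
  rcases h1 with (h1 | h1) | h1 | h1
  exacts [absurd h1 hg.det, h1, absurd h1 (hg.den ha), absurd h1 (hg.den hb)]

theorem cr_mob (hg : InE E g) (ha : a ∉ E) (hb : b ∉ E) (hc : c ∉ E) (hd : d ∉ E) :
    cr (mob g a) (mob g b) (mob g c) (mob g d) = cr a b c d := by
  have h1 := hg.den ha
  have h2 := hg.den hb
  have h3 := hg.den hc
  have h4 := hg.den hd
  have h5 := hg.det
  unfold cr
  rw [mob_sub hg ha hc, mob_sub hg hb hd, mob_sub hg ha hd, mob_sub hg hb hc]
  have hk : g.det ^ 2 / ((g 1 0 * a + g 1 1) * (g 1 0 * b + g 1 1) * (g 1 0 * c + g 1 1) *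
      (g 1 0 * d + g 1 1)) ≠ 0 := by positivity
  rw [← mul_div_mul_left ((a - c) * (b - d)) _ hk]
  congr 1 <;> field_simp

/-- The bilinear form with `z - g w = bf z w g / (c w + d)`. -/
def bf (z w : K) (g : Matrix (Fin 2) (Fin 2) K) : K :=
  z * (g 1 0 * w + g 1 1) - (g 0 0 * w + g 0 1)

theorem sub_mob (hg : InE E g) (hw : w ∉ E) :
    z - mob g w = bf z w g / (g 1 0 * w + g 1 1) := by
  have h1 := hg.den hw
  unfold mob bf
  rw [sub_div, mul_div_assoc, div_self h1, mul_one]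

theorem cr_sub_one (hg : InE E g) (hc : c ∉ E) (hd : d ∉ E) (h1 : mob g d ≠ a)
    (h2 : mob g c ≠ b) :
    cr a b (mob g c) (mob g d) - 1 = (a - b) * (c - d) * g.det / (bf a d g * bf b c g) := by
  have e1 := sub_mob (z := a) hg hd
  have e2 := sub_mob (z := b) hg hc
  have e3 := mob_sub hg hc hd
  have h3 := hg.den hc
  have h4 := hg.den hd
  have h1' : a - mob g d ≠ 0 := sub_ne_zero.2 h1.symm
  have h2' : b - mob g c ≠ 0 := sub_ne_zero.2 h2.symm
  have e4 : cr a b (mob g c) (mob g d) - 1 =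
      (a - b) * (mob g c - mob g d) / ((a - mob g d) * (b - mob g c)) := by
    unfold cr; field_simp; ring
  have b1 : bf a d g ≠ 0 := fun h => h1' (by rw [e1, h, zero_div])
  have b2 : bf b c g ≠ 0 := fun h => h2' (by rw [e2, h, zero_div])
  rw [e4, e1, e2, e3]
  generalize g 1 0 * c + g 1 1 = p at *
  generalize g 1 0 * d + g 1 1 = q at *
  field_simp

variable [IsUltrametricDist K]

theorem kappa (hE : IsClosed (E : Set K)) (hz : z ∉ E) :
    ∃ k : ℝ, 0 < k ∧ k ≤ 1 ∧ ∀ x ∈ E, ∀ y ∈ E, k * max ‖x‖ ‖y‖ ≤ ‖x * z + y‖ := by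
  obtain ⟨e, he, h⟩ := Metric.isOpen_iff.1 hE.isOpen_compl z hz
  have h1 : ∀ x ∈ E, ∀ y ∈ E, e * ‖x‖ ≤ ‖x * z + y‖ := by
    intro x hx y hy
    by_cases h0 : x = 0
    · simp [h0]
    have h2 : -y / x ∉ Metric.ball z e := fun h' => h h' (E.div_mem (E.neg_mem hy) hx)
    rw [Metric.mem_ball, not_lt, dist_comm, dist_eq_norm] at h2
    have e1 : x * z + y = x * (z - -y / x) := by field_simp; ring
    rw [e1, norm_mul, mul_comm]
    exact mul_le_mul_of_nonneg_left h2 (norm_nonneg _)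
  have hz0 := norm_nonneg z
  refine ⟨min (min 1 e) (e / (‖z‖ + 1)), lt_min (lt_min one_pos he) (by positivity),
    (min_le_left _ _).trans (min_le_left _ _), fun x hx y hy => ?_⟩
  set k := min (min 1 e) (e / (‖z‖ + 1)) with hk
  have k1 : k ≤ 1 := (min_le_left _ _).trans (min_le_left _ _)
  have k2 : k ≤ e := (min_le_left _ _).trans (min_le_right _ _)
  have k3 : k * (‖z‖ + 1) ≤ e := by
    rw [← le_div_iff₀ (by positivity)]; exact min_le_right _ _
  have k0 : 0 ≤ k := le_min (le_min zero_le_one he.le) (by positivity)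
  have h2 := h1 x hx y hy
  have hx0 := norm_nonneg x
  have hn := norm_nonneg (x * z + y)
  rw [mul_max_of_nonneg _ _ k0]
  refine max_le (by nlinarith) ?_
  have e1 : y = (x * z + y) + -(x * z) := by ring
  have h3 := IsUltrametricDist.norm_add_le_max (x * z + y) (-(x * z))
  rw [← e1, norm_neg, norm_mul] at h3
  rcases le_max_iff.1 h3 with h4 | h4
  · nlinarith
  · have : k * ‖y‖ ≤ k * (‖x‖ * ‖z‖) := mul_le_mul_of_nonneg_left h4 k0
    nlinarith

theorem norm_add_of_lt {x y : K} (h : ‖y‖ < ‖x‖) : ‖x + y‖ = ‖x‖ := by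
  rw [IsUltrametricDist.norm_add_eq_max_of_norm_ne_norm h.ne', max_eq_left h.le]

theorem grow (hE : IsClosed (E : Set K)) (hz : z ∉ E) (hw : w ∉ E) :
    ∃ k R : ℝ, 0 < k ∧ ∀ g : Matrix (Fin 2) (Fin 2) K, InE E g → ‖g.det‖ = 1 → R ≤ nm g →
      k * nm g ≤ ‖bf z w g‖ := by
  obtain ⟨k1, hk1, hk1', h1⟩ := kappa hE hz
  obtain ⟨k2, hk2, hk2', h2⟩ := kappa hE hw
  have hw0 := norm_nonneg w
  have hz0 := norm_nonneg z
  have hk : 0 < k1 * k2 := mul_pos hk1 hk2
  refine ⟨k1 * k2, (‖w‖ + 1) * (‖z‖ + 1) / (k1 * k2) + 1, hk, fun g hg hdet hR => ?_⟩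
  have hR' : (‖w‖ + 1) * (‖z‖ + 1) < k1 * k2 * nm g := by
    have : (‖w‖ + 1) * (‖z‖ + 1) / (k1 * k2) < nm g := by linarith
    rwa [div_lt_iff₀ hk, mul_comm (nm g)] at this
  have hv := h2 _ (hg.ent 1 0) _ (hg.ent 1 1)
  have hu := h2 _ (hg.ent 0 0) _ (hg.ent 0 1)
  have hc := h1 _ (hg.ent 1 0) _ (E.neg_mem (hg.ent 0 0))
  have hd := h1 _ (hg.ent 1 1) _ (E.neg_mem (hg.ent 0 1))
  rw [norm_neg] at hc hd
  have e1 : bf z w g * g 1 0 = (g 1 0 * w + g 1 1) * (g 1 0 * z + -g 0 0) + g.det := by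
    rw [Matrix.det_fin_two]; unfold bf; ring
  have e2 : bf z w g * g 1 1 = (g 1 0 * w + g 1 1) * (g 1 1 * z + -g 0 1) + -(w * g.det) := by
    rw [Matrix.det_fin_two]; unfold bf; ring
  have hB := norm_nonneg (bf z w g)
  have hzw : 0 ≤ ‖w‖ * ‖z‖ := mul_nonneg hw0 hz0
  have key : ∀ (m x : ℝ) (p q r s : K), bf z w g * p = q * r + s → ‖s‖ ≤ ‖w‖ + 1 →
      k2 * m ≤ ‖q‖ → k1 * nm g ≤ ‖r‖ → 1 ≤ m → ‖p‖ ≤ m → k1 * k2 * nm g ≤ ‖bf z w g‖ := by
    intro m x p q r s e hs hq hr hm hp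
    have hN : 0 < nm g := by
      by_contra hN
      have : k1 * k2 * nm g ≤ 0 := mul_nonpos_of_nonneg_of_nonpos hk.le (not_lt.1 hN)
      nlinarith
    have h3 : k1 * k2 * nm g * m ≤ ‖q * r‖ := by
      rw [norm_mul]
      calc k1 * k2 * nm g * m = (k2 * m) * (k1 * nm g) := by ring
        _ ≤ ‖q‖ * ‖r‖ := mul_le_mul hq hr (by positivity) (norm_nonneg _)
    have h4 : k1 * k2 * nm g ≤ k1 * k2 * nm g * m := le_mul_of_one_le_right (by positivity) hm
    have h5 : ‖s‖ < ‖q * r‖ := by nlinarith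
    have h6 := norm_add_of_lt h5
    rw [← e, norm_mul] at h6
    have h7 : k1 * k2 * nm g * m ≤ ‖bf z w g‖ * m := by
      have := mul_le_mul_of_nonneg_left hp hB
      linarith
    exact le_of_mul_le_mul_right h7 (by linarith)
  by_cases hm : 1 ≤ max ‖g 1 0‖ ‖g 1 1‖
  · have hN : nm g = max ‖g 1 0‖ ‖g 0 0‖ ∨ nm g = max ‖g 1 1‖ ‖g 0 1‖ := by
      unfold nm
      simp only [max_def]
      split_ifs <;> first | (left; rfl) | (right; rfl) | (left; linarith) | (right; linarith)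
    rcases hN with hN | hN
    · exact key _ 0 _ _ _ _ e1 (by rw [hdet]; linarith) hv (by rwa [hN]) hm (le_max_left _ _)
    · exact key _ 0 _ _ _ _ e2 (by rw [norm_neg, norm_mul, hdet]; linarith) hv (by rwa [hN]) hm
        (le_max_right _ _)
  · rw [not_le] at hm
    have hk3 : k1 * k2 ≤ 1 := by nlinarith
    have hN1 : 1 < nm g := by
      by_contra hN
      have : k1 * k2 * nm g ≤ k1 * k2 * 1 := mul_le_mul_of_nonneg_left (not_lt.1 hN) hk.le
      nlinarith
    have hN : nm g = max ‖g 0 0‖ ‖g 0 1‖ := by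
      unfold nm at hN1 ⊢
      rcases lt_max_iff.1 hN1 with h | h
      · exact max_eq_left (by linarith)
      · linarith
    rw [← hN] at hu
    have h3 : ‖g 1 0 * w + g 1 1‖ ≤ ‖w‖ + 1 := by
      refine (norm_add_le _ _).trans ?_
      rw [norm_mul]
      have := (le_max_left _ _).trans_lt hm
      have := (le_max_right _ _).trans_lt hm
      nlinarith [norm_nonneg (g 1 0)]
    have h4 : k1 * k2 * nm g ≤ k2 * nm g := by
      have : 0 ≤ k2 * nm g := by positivity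
      nlinarith
    have h5 : ‖z * (g 1 0 * w + g 1 1)‖ < ‖-(g 0 0 * w + g 0 1)‖ := by
      rw [norm_neg, norm_mul]
      have := mul_le_mul_of_nonneg_left h3 hz0
      nlinarith
    have h6 := norm_add_of_lt h5
    have e3 : bf z w g = -(g 0 0 * w + g 0 1) + z * (g 1 0 * w + g 1 1) := by unfold bf; ring
    rw [e3, h6, norm_neg]
    linarith

end Pool.Agent.MP_a88b1d_nt.H92
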