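import Pool.Agent.MP_a88b1d_nt.H92.Lt

/-! Row PER: existence of the periods and their absolute values. -/

namespace Pool.Agent.MP_a88b1d_nt.H92

open H42 Filter Topology

variable {C : Type} [NontriviallyNormedField C] [IsUltrametricDist C] [Algebra (ZMod 2) C] {T : C}
  {G : Type} [Group G] {ρ : G →* MK T}

omit [IsUltrametricDist C] in
theorem good (hT : 1 < ‖T‖) (ht : TREE T) (h : H42.Good ρ) : Good (Finf T) (toM ρ) where
  closed := Finf_closed
  ent := fun g => (ρ g).2.1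
  det := fun g => by
    have : (toM ρ g).det = 1 := h.1 g
    rw [this, norm_one]
  disc := fun R => by
    obtain ⟨N, hN⟩ := pow_unbounded_of_one_lt (R ^ 2) hT
    refine (h.2 N).subset fun g hg => ?_
    have h1 := ht.spec 1 (ρ g)
    have h2 : nrm (ρ g).1 ≤ R := hg
    have h3 : 0 ≤ nrm (ρ g).1 := (norm_nonneg ((ρ g).1 0 0)).trans (le_nrm (ρ g).1 0 0)
    simp only [OneMemClass.coe_one, Matrix.det_one, norm_one, Matrix.adjugate_one, one_mul, h.1 g,
      mul_one] at h1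
    have h4 : ‖T‖ ^ dd T 1 (ρ g) < ‖T‖ ^ N := by
      rw [h1]; exact (pow_le_pow_left₀ h3 h2 2).trans_lt hN
    exact ((pow_lt_pow_iff_right₀ hT).1 h4).le

omit [IsUltrametricDist C] [Algebra (ZMod 2) C] in
theorem mob_sub_mob (g h : MK T) {z w : C} (hz : z ∉ Finf T) (hw : w ∉ Finf T) :
    mob g.1 z - mob h.1 w = QQ (g.1.adjugate * h.1) z w / (den g.1 z * den h.1 w) := by
  have h1 := InE.den ⟨g.2.1, g.2.2⟩ hz
  have h2 := InE.den ⟨h.2.1, h.2.2⟩ hw
  unfold mob den QQ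
  rw [div_sub_div _ _ h1 h2]
  congr 1
  simp [Matrix.adjugate_fin_two, Matrix.mul_apply, Fin.sum_univ_two]
  ring

omit [IsUltrametricDist C] [Algebra (ZMod 2) C] in
theorem cr_eq (x y u v : MK T) {z w : C} (hz : z ∉ Finf T) (hw : w ∉ Finf T) :
    cr (mob y.1 z) (mob x.1 z) (mob u.1 w) (mob v.1 w) =
      QQ (y.1.adjugate * u.1) z w * QQ (x.1.adjugate * v.1) z w /
        (QQ (y.1.adjugate * v.1) z w * QQ (x.1.adjugate * u.1) z w) := by
  have h1 : den x.1 z ≠ 0 := InE.den ⟨x.2.1, x.2.2⟩ hz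
  have h2 : den y.1 z ≠ 0 := InE.den ⟨y.2.1, y.2.2⟩ hz
  have h3 : den u.1 w ≠ 0 := InE.den ⟨u.2.1, u.2.2⟩ hw
  have h4 : den v.1 w ≠ 0 := InE.den ⟨v.2.1, v.2.2⟩ hw
  unfold cr
  rw [mob_sub_mob y u hz hw, mob_sub_mob x v hz hw, mob_sub_mob y v hz hw, mob_sub_mob x u hz hw,
    div_mul_div_comm, div_mul_div_comm]
  have e : den y.1 z * den v.1 w * (den x.1 z * den u.1 w) =
      den y.1 z * den u.1 w * (den x.1 z * den v.1 w) := by ring
  rw [e, div_div_div_cancel_right₀ (by positivity)]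

omit [IsUltrametricDist C] [Algebra (ZMod 2) C] in
theorem adj_mem (x y : MK T) (i j : Fin 2) : (x.1.adjugate * y.1) i j ∈ Finf T := by
  rw [Matrix.mul_apply]
  refine sum_mem fun k _ => mul_mem ?_ (y.2.1 k j)
  rw [Matrix.adjugate_fin_two]
  fin_cases i <;> fin_cases k <;> simp [x.2.1]

omit [IsUltrametricDist C] [Algebra (ZMod 2) C] in
theorem adj_ne (x y : MK T) : x.1.adjugate * y.1 ≠ 0 := by
  intro h
  have := congrArg Matrix.det h
  rw [Matrix.det_mul, Matrix.det_adjugate] at this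
  simp [x.2.2, y.2.2] at this

theorem norm_cr (hT : 1 < ‖T‖) (ht : TREE T) (x y u v : MK T) {z w : C} (h : Orth z w) :
    ‖cr (mob y.1 z) (mob x.1 z) (mob u.1 w) (mob v.1 w)‖ ^ 2 = ‖T‖ ^ DD (dd T) x y u v := by
  obtain ⟨hz, hw, -⟩ := orth_adm hT h
  have h0 : ‖T‖ ≠ 0 := by positivity
  have hx := norm_ne_zero_iff.2 x.2.2
  have hy := norm_ne_zero_iff.2 y.2.2
  have hu := norm_ne_zero_iff.2 u.2.2
  have hv := norm_ne_zero_iff.2 v.2.2
  rw [cr_eq x y u v hz hw, norm_div, norm_mul, norm_mul, div_pow, mul_pow, mul_pow,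
    orth_norm hT h _ (adj_mem _ _), orth_norm hT h _ (adj_mem _ _), orth_norm hT h _ (adj_mem _ _),
    orth_norm hT h _ (adj_mem _ _), ← ht.spec, ← ht.spec, ← ht.spec, ← ht.spec, DD, zpow_add₀ h0,
    zpow_sub₀ h0, zpow_sub₀ h0]
  simp only [zpow_natCast]
  field_simp

/-- Comparison of leading terms at a point and at its Frobenius image. -/
def Rl (T x y : C) : Prop := ∃ n : ℤ, ‖x‖ = ‖T‖ ^ n ∧ One (y * T ^ n / x ^ 2)

omit [Algebra (ZMod 2) C] in
theorem Rl.mul (hT : 1 < ‖T‖) {x y x' y' : C} (h : Rl T x y) (h' : Rl T x' y') :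
    Rl T (x * x') (y * y') := by
  obtain ⟨n, h1, h2⟩ := h
  obtain ⟨m, h3, h4⟩ := h'
  have hT0 : T ≠ 0 := by rw [← norm_pos_iff]; linarith
  refine ⟨n + m, by rw [norm_mul, h1, h3, zpow_add₀ (by positivity)], ?_⟩
  convert h2.mul h4 using 1
  rw [zpow_add₀ hT0]; ring

omit [Algebra (ZMod 2) C] in
theorem Rl.inv {x y : C} (h : Rl T x y) : Rl T x⁻¹ y⁻¹ := by
  obtain ⟨n, h1, h2⟩ := h
  refine ⟨-n, by rw [norm_inv, h1, zpow_neg], ?_⟩
  convert h2.inv using 1
  rw [zpow_neg]; ring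

theorem rl_QQ (hT : 1 < ‖T‖) {z w : C} (h : Orth z w) (h' : Orth (z ^ 2) (w ^ 2)) (x y : MK T) :
    Rl T (QQ (x.1.adjugate * y.1) z w) (QQ (x.1.adjugate * y.1) (z ^ 2) (w ^ 2)) := by
  haveI : CharP C 2 := charTwo
  have hT0 : T ≠ 0 := by rw [← norm_pos_iff]; linarith
  obtain ⟨n, M0, h1, h2, h3, h4⟩ := orth_lead hT _ (adj_mem x y) (adj_ne x y)
  have e : QQ M0 (z ^ 2) (w ^ 2) = QQ M0 z w ^ 2 := by
    have hf : ∀ i j, M0 i j ^ 2 = M0 i j := fun i j => by rcases h1 i j with h | h <;> simp [h]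
    unfold QQ
    rw [sub_pow_char, mul_pow, add_pow_char, add_pow_char, mul_pow, mul_pow, hf, hf, hf, hf]
  have n1 := h.2.2 M0 h1 h2
  have a0 : QQ M0 z w ≠ 0 := by rw [← norm_ne_zero_iff, n1]; exact one_ne_zero
  have t0 : T ^ n ≠ 0 := zpow_ne_zero _ hT0
  have o1 := (one_div_iff (mul_ne_zero t0 a0)).2 (by
    rw [norm_mul, n1, mul_one, norm_zpow]; exact h4 z w h.1 h.2.1)
  have o2 := (one_div_iff (mul_ne_zero t0 (pow_ne_zero 2 a0))).2 (by
    rw [norm_mul, norm_pow, n1, one_pow, mul_one, norm_zpow, ← e]; exact h4 _ _ h'.1 h'.2.1)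
  refine ⟨n, by rw [orth_norm hT h _ (adj_mem x y), h3], ?_⟩
  convert o2.mul (o1.pow 2).inv using 1
  field_simp

variable [CompleteSpace C]

theorem norm_per (hT : 1 < ‖T‖) (ht : TREE T) (h : H42.Good ρ) {w z : C} (ho : Orth z w)
    (a b : G) : ‖per (toM ρ) w z a b‖ ^ 2 = ‖T‖ ^ Psi (dd T) ρ 1 (ρ b) 1 (ρ a) := by
  have hg := good hT ht h
  obtain ⟨hz, hw, hoff⟩ := orth_adm hT ho
  have o : Off (toM ρ) z w := fun g => hoff (ρ g)
  have hf := hg.tendsto (hg.nm b hz) hz hw (hg.nm a hw)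
    ((o.right hg hw a).left hg hz (hg.nm a hw) b) o
  have e : ∀ g, ‖cr (mob (toM ρ b) z) z (mob (toM ρ g) w) (mob (toM ρ g) (mob (toM ρ a) w))‖ ^ 2 =
      ‖T‖ ^ DD (dd T) 1 (ρ b) (ρ g * 1) (ρ g * ρ a) := fun g => by
    rw [← norm_cr hT ht _ _ _ _ ho, ← hg.mul _ _ hw, mul_one, ← map_mul, OneMemClass.coe_one,
      mob_one]
    rfl
  set s := (Prod.finite_far hf one_pos).toFinset with hs
  have h1 : ∀ g ∉ s, ‖cr (mob (toM ρ b) z) z (mob (toM ρ g) w)
      (mob (toM ρ g) (mob (toM ρ a) w)) - 1‖ < 1 := fun g hg => by simpa [hs] using hg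
  unfold per Th Psi
  rw [Prod.norm_tprod hf h1, ← Finset.prod_pow, finsum_eq_sum_of_support_subset (s := s),
    Finset.prod_congr rfl fun g _ => e g]
  · have h0 : ‖T‖ ≠ 0 := by positivity
    generalize s = t
    classical
    induction t using Finset.induction_on with
    | empty => simp
    | insert g t hg ih => rw [Finset.prod_insert hg, Finset.sum_insert hg, zpow_add₀ h0, ih]
  · intro g hg
    by_contra hn
    have := e g
    rw [Prod.norm_eq_one (h1 g hn), one_pow, eq_comm,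
      zpow_eq_one_iff_right₀ (by positivity) hT.ne'] at this
    exact hg this

theorem tors (hT : 1 < ‖T‖) (ht : TREE T) (h : H42.Good ρ) {w z : C} (ho : Orth z w)
    (ho' : Orth (z ^ 2) (w ^ 2)) (a b : G)
    (he : per (toM ρ) w z a b = per (toM ρ) (w ^ 2) (z ^ 2) a b) {k : ℕ} (hk : k ≠ 0)
    (h1 : per (toM ρ) w z a b ^ k = 1) : per (toM ρ) w z a b = 1 := by
  have hg := good hT ht h
  have fac : ∀ {w z : C}, Orth z w → ∀ᶠ s : Finset G in atTop,
      One ((∏ g ∈ s, cr (mob (ρ b).1 z) (mob (1 : MK T).1 z) (mob (ρ g).1 w)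
        (mob (ρ (g * a)).1 w)) / per (toM ρ) w z a b) := by
    intro w z ho
    obtain ⟨hz, hw, hoff⟩ := orth_adm hT ho
    have o : Off (toM ρ) z w := fun g => hoff (ρ g)
    have h0 := per_ne_zero hg hw hz o a b
    have h2 := (Metric.tendsto_nhds.1 (per_hasProd hg hw hz o a b)) _ (norm_pos_iff.2 h0)
    refine Filter.Eventually.mono h2 fun s hs => ?_
    rw [one_div_iff h0, OneMemClass.coe_one, mob_one, ← dist_eq_norm]
    exact hs
  obtain ⟨s, hs1, hs2⟩ := ((fac ho).and (fac ho')).exists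
  obtain ⟨hz, hw, -⟩ := orth_adm hT ho
  obtain ⟨hz', hw', -⟩ := orth_adm hT ho'
  have hr : Rl T (∏ g ∈ s, cr (mob (ρ b).1 z) (mob (1 : MK T).1 z) (mob (ρ g).1 w)
      (mob (ρ (g * a)).1 w)) (∏ g ∈ s, cr (mob (ρ b).1 (z ^ 2)) (mob (1 : MK T).1 (z ^ 2))
      (mob (ρ g).1 (w ^ 2)) (mob (ρ (g * a)).1 (w ^ 2))) := by
    clear hs1 hs2
    classical
    induction s using Finset.induction_on with
    | empty => exact ⟨0, by simp, by simpa using One.one⟩
    | insert g t hg ih =>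
      rw [Finset.prod_insert hg, Finset.prod_insert hg]
      refine Rl.mul hT ?_ ih
      rw [cr_eq _ _ _ _ hz hw, cr_eq _ _ _ _ hz' hw', div_eq_mul_inv, div_eq_mul_inv]
      exact ((rl_QQ hT ho ho' _ _).mul hT (rl_QQ hT ho ho' _ _)).mul hT
        ((rl_QQ hT ho ho' _ _).mul hT (rl_QQ hT ho ho' _ _)).inv
  rw [← he] at hs2
  generalize per (toM ρ) w z a b = c at *
  generalize (∏ g ∈ s, cr (mob (ρ b).1 z) (mob (1 : MK T).1 z) (mob (ρ g).1 w)
      (mob (ρ (g * a)).1 w)) = x at *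
  generalize (∏ g ∈ s, cr (mob (ρ b).1 (z ^ 2)) (mob (1 : MK T).1 (z ^ 2))
      (mob (ρ g).1 (w ^ 2)) (mob (ρ (g * a)).1 (w ^ 2))) = y at *
  obtain ⟨n, h2, h3⟩ := hr
  have hc := norm_of_pow hk h1
  have h4 := hs1.norm
  have h5 := hs2.norm
  rw [norm_div, hc, div_one] at h4 h5
  rw [h4, eq_comm, zpow_eq_one_iff_right₀ (by positivity) hT.ne'] at h2
  rw [h2, zpow_zero, mul_one] at h3
  have c0 : c ≠ 0 := by rw [← norm_ne_zero_iff, hc]; exact one_ne_zero
  have x0 : x ≠ 0 := by rw [← norm_ne_zero_iff, h4]; exact one_ne_zero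
  have y0 : y ≠ 0 := by rw [← norm_ne_zero_iff, h5]; exact one_ne_zero
  refine One.eq_one ?_ hk h1
  convert (hs2.mul h3.inv).mul (hs1.pow 2).inv using 1
  field_simp

omit [Algebra (ZMod 2) C] in
theorem per_indep {E : Subfield C} {ρ : G →* M2 C} (h : Good E ρ) {x y t : C} (hx : x ∉ E)
    (hy : y ∉ E) (ht : t ∉ E) (h1 : Off ρ y x) (h2 : Off ρ t x) (h3 : Off ρ t y) {w z w' z' : C}
    (hw : w ∉ E) (hz : z ∉ E) (ho : Off ρ z w) (hw' : w' ∉ E) (hz' : z' ∉ E) (ho' : Off ρ z' w')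
    (a b : G) : per ρ w z a b = per ρ w' z' a b := by
  have two : ∀ {p q u : C}, u ∉ E → Off ρ p q → Off ρ p u ∨ Off ρ q u := by
    intro p q u hu hpq
    by_contra hn
    simp only [Off, not_or, not_forall, not_not] at hn
    obtain ⟨⟨g, hg⟩, k, hk⟩ := hn
    refine hpq (g * k⁻¹) ?_
    rw [← hk, h.mul _ _ (h.nm k hu), h.inv_mob _ hu, hg]
  obtain ⟨p, hp, o1, o2⟩ : ∃ p, p ∉ E ∧ Off ρ p w ∧ Off ρ p w' := by
    rcases two hw h1 with a1 | a1 <;> rcases two hw h2 with a2 | a2 <;>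
    rcases two hw h3 with a3 | a3 <;> rcases two hw' h1 with b1 | b1 <;>
    rcases two hw' h2 with b2 | b2 <;> rcases two hw' h3 with b3 | b3 <;>
    first
      | exact ⟨x, hx, ‹_›, ‹_›⟩
      | exact ⟨y, hy, ‹_›, ‹_›⟩
      | exact ⟨t, ht, ‹_›, ‹_›⟩
  rw [per_left h hw hz hp ho o1, per_right h hw hw' hp o1 o2, per_left h hw' hp hz' o2 ho']

theorem per_ok [IsAlgClosed C] (T : C) (hT : 1 < ‖T‖) (ht : TREE T) : PER T := by
  intro G _ ρ h
  have hg := good hT ht h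
  obtain ⟨w0, z0, y0, o1, o2, o3, o4⟩ := exists_orth (C := C)
  obtain ⟨hz0, hw0, f1⟩ := orth_adm hT o1
  obtain ⟨hy0, -, f2⟩ := orth_adm hT o2
  obtain ⟨-, -, f3⟩ := orth_adm hT o3
  obtain ⟨hz1, hw1, f4⟩ := orth_adm hT o4
  refine ⟨⟨w0, z0, hw0, hz0, fun g => f1 (ρ g)⟩, fun w z ⟨hw, hz, ho⟩ => ?_⟩
  have ind : ∀ {w z : C}, w ∉ Finf T → z ∉ Finf T → Off (toM ρ) z w → ∀ a b,
      per (toM ρ) w z a b = per (toM ρ) w0 z0 a b := fun hw hz ho a b =>
    per_indep hg hw0 hz0 hy0 (fun g => f1 (ρ g)) (fun g => f2 (ρ g)) (fun g => f3 (ρ g)) hw hz ho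
      hw0 hz0 (fun g => f1 (ρ g)) a b
  have nrm : ∀ (χ : Gbar G →* Cˣ) (a : G), (∀ b, (χ (cls b) : C) = per (toM ρ) w z a b) →
      NormIs ρ χ a := fun χ a hχ b => by rw [hχ, ind hw hz ho, norm_per hT ht h o1]
  refine ⟨fun a => ?_, fun χ hχ => ?_⟩
  · let φ : G →* Cˣ := MonoidHom.mk' (fun b => Units.mk0 _ (per_ne_zero hg hw hz ho a b))
      fun b b' => Units.ext (per_mul_right hg hw hz ho a b b')
    have hφ : ∀ x ∈ CommGroup.torsion (Abelianization G), Abelianization.lift φ x = 1 := by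
      intro x hx
      obtain ⟨b, rfl⟩ : ∃ b, Abelianization.of b = x := QuotientGroup.mk_surjective x
      obtain ⟨k, hk, h1⟩ := isOfFinOrder_iff_pow_eq_one.1 hx
      have h2 := congrArg (fun t => ((Abelianization.lift φ t : Cˣ) : C)) h1
      simp only [map_pow, Abelianization.lift_apply_of, map_one, Units.val_pow_eq_pow_val,
        Units.val_one] at h2
      have h3 : per (toM ρ) w z a b ^ k = 1 := h2
      rw [Abelianization.lift_apply_of]
      apply Units.ext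
      change per (toM ρ) w z a b = 1
      rw [ind hw hz ho] at h3 ⊢
      exact tors hT ht h o1 o4 a b (ind hw1 hz1 (fun g => f4 (ρ g)) a b).symm hk.ne' h3
    have hv : ∀ b, ((QuotientGroup.lift _ (Abelianization.lift φ) hφ (cls b) : Cˣ) : C) =
        per (toM ρ) w z a b := fun b => rfl
    exact ⟨_, fun b => by rw [hv]; exact per_hasProd hg hw hz ho a b, nrm _ a hv⟩
  · have one : ∀ b, per (toM ρ) w z 1 b = 1 := fun b => by
      have := per_mul_left hg hw hz ho 1 1 b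
      rw [mul_one] at this
      exact mul_left_cancel₀ (per_ne_zero hg hw hz ho 1 b) (by rw [← this, mul_one])
    suffices ∃ a, ∀ b, (χ (cls b) : C) = per (toM ρ) w z a b from
      this.imp fun a ha => nrm χ a ha
    induction hχ using Subgroup.closure_induction with
    | mem x hx => exact hx.imp fun a ha b => (ha b).unique (per_hasProd hg hw hz ho a b)
    | one => exact ⟨1, fun b => (one b).symm⟩
    | mul x y _ _ hx hy =>
      obtain ⟨a, ha⟩ := hx
      obtain ⟨a', ha'⟩ := hy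
      exact ⟨a * a', fun b => by rw [per_mul_left hg hw hz ho, ← ha, ← ha']; rfl⟩
    | inv x _ hx =>
      obtain ⟨a, ha⟩ := hx
      refine ⟨a⁻¹, fun b => ?_⟩
      have := per_mul_left hg hw hz ho a⁻¹ a b
      rw [inv_mul_cancel, one, ← ha] at this
      rw [MonoidHom.inv_apply, Units.val_inv_eq_inv_val]
      exact (eq_inv_of_mul_eq_one_left this.symm).symm

end Pool.Agent.MP_a88b1d_nt.H92
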