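import Mathlib

/-! Infinite products in a complete ultrametric field. -/

namespace Pool.Agent.MP_a88b1d_nt.H92.Prod

open Filter Topology

variable {K : Type} [NormedField K] [IsUltrametricDist K] {ι : Type}

theorem norm_eq_one {x : K} (h : ‖x - 1‖ < 1) : ‖x‖ = 1 := by
  have h1 : ‖x - 1‖ ≠ ‖(1 : K)‖ := by rw [norm_one]; exact h.ne
  have := IsUltrametricDist.norm_add_eq_max_of_norm_ne_norm h1
  rw [sub_add_cancel, norm_one, max_eq_right h.le] at this
  exact this

theorem prod_sub_one (f : ι → K) {e : ℝ} (he : 0 < e) (he1 : e ≤ 1) (t : Finset ι)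
    (h : ∀ i ∈ t, ‖f i - 1‖ < e) : ‖∏ i ∈ t, f i - 1‖ < e := by
  classical
  induction t using Finset.induction_on with
  | empty => simpa using he
  | insert a t ha ih =>
    rw [Finset.prod_insert ha]
    have h1 := h a (Finset.mem_insert_self _ _)
    have h2 := ih fun i hi => h i (Finset.mem_insert_of_mem hi)
    have e1 : f a * ∏ i ∈ t, f i - 1 = f a * (∏ i ∈ t, f i - 1) + (f a - 1) := by ring
    rw [e1]
    refine (IsUltrametricDist.norm_add_le_max _ _).trans_lt (max_lt ?_ h1)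
    rw [norm_mul, norm_eq_one (h1.trans_le he1), one_mul]
    exact h2

theorem finite_far {f : ι → K} (hf : Tendsto f cofinite (𝓝 1)) {e : ℝ} (he : 0 < e) :
    {i | e ≤ ‖f i - 1‖}.Finite := by
  have := (Metric.tendsto_nhds.1 hf) e he
  rw [Filter.eventually_cofinite] at this
  refine this.subset fun i hi => ?_
  simpa [dist_eq_norm] using hi

theorem norm_prod_eq {f : ι → K} {s t : Finset ι} (hst : s ⊆ t)
    (hs : ∀ i ∉ s, ‖f i - 1‖ < 1) : ‖∏ i ∈ t, f i‖ = ‖∏ i ∈ s, f i‖ := by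
  classical
  rw [← Finset.prod_sdiff hst, norm_mul, norm_eq_one (prod_sub_one f one_pos le_rfl _
    fun i hi => hs i (Finset.mem_sdiff.1 hi).2), one_mul]

theorem multipliable [CompleteSpace K] {f : ι → K} (hf : Tendsto f cofinite (𝓝 1)) :
    Multipliable f := by
  classical
  have hc : CauchySeq fun s : Finset ι => ∏ i ∈ s, f i := by
    rw [Metric.cauchySeq_iff']
    intro e he
    set s1 := (finite_far hf one_pos).toFinset with hs1
    have h1 : ∀ i ∉ s1, ‖f i - 1‖ < 1 := fun i hi => by simpa [hs1] using hi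
    set C := ‖∏ i ∈ s1, f i‖ with hC
    have hC0 : 0 ≤ C := norm_nonneg _
    have hd : 0 < min 1 (e / (C + 1)) := lt_min one_pos (by positivity)
    set s0 := (finite_far hf hd).toFinset with hs0
    have h0 : ∀ i ∉ s0, ‖f i - 1‖ < min 1 (e / (C + 1)) := fun i hi => by simpa [hs0] using hi
    refine ⟨s0 ∪ s1, fun s hs => ?_⟩
    rw [dist_eq_norm, ← Finset.prod_sdiff hs]
    have e1 : ∀ a b : K, a * b - b = (a - 1) * b := fun a b => by ring
    rw [e1, norm_mul, norm_prod_eq Finset.subset_union_right h1, ← hC]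
    have h2 := prod_sub_one f hd (min_le_left _ _) (s \ (s0 ∪ s1)) fun i hi =>
      h0 i fun h => (Finset.mem_sdiff.1 hi).2 (Finset.mem_union_left _ h)
    have h3 := h2.trans_le (min_le_right _ _)
    rw [lt_div_iff₀ (by positivity)] at h3
    nlinarith [norm_nonneg (∏ i ∈ s \ (s0 ∪ s1), f i - 1)]
  obtain ⟨a, ha⟩ := cauchySeq_tendsto_of_complete hc
  exact ⟨a, ha⟩

theorem norm_tprod [CompleteSpace K] {f : ι → K} (hf : Tendsto f cofinite (𝓝 1)) {s : Finset ι}
    (hs : ∀ i ∉ s, ‖f i - 1‖ < 1) : ‖∏' i, f i‖ = ∏ i ∈ s, ‖f i‖ := by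
  have h := (multipliable hf).hasProd
  have h2 : Tendsto (fun t : Finset ι => ‖∏ i ∈ t, f i‖) atTop (𝓝 ‖∏' i, f i‖) :=
    Filter.Tendsto.norm (l := atTop) h
  have h3 : (fun t : Finset ι => ‖∏ i ∈ t, f i‖) =ᶠ[atTop] fun _ => ‖∏ i ∈ s, f i‖ := by
    filter_upwards [eventually_ge_atTop s] with t ht using norm_prod_eq ht hs
  rw [← norm_prod]
  exact tendsto_nhds_unique (h2.congr' h3) tendsto_const_nhds

theorem tprod_ne_zero [CompleteSpace K] {f : ι → K} (hf : Tendsto f cofinite (𝓝 1))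
    (h0 : ∀ i, f i ≠ 0) : ∏' i, f i ≠ 0 := by
  rw [← norm_ne_zero_iff, norm_tprod hf (s := (finite_far hf one_pos).toFinset)
    fun i hi => by simpa using hi]
  exact Finset.prod_ne_zero_iff.2 fun i _ => norm_ne_zero_iff.2 (h0 i)

/-- The product is a finite partial product times a one-unit. -/
theorem tprod_approx [CompleteSpace K] {f : ι → K} (hf : Tendsto f cofinite (𝓝 1))
    (h0 : ∀ i, f i ≠ 0) : ∃ s : Finset ι, ‖∏' i, f i - ∏ i ∈ s, f i‖ < ‖∏' i, f i‖ := by
  have h := (multipliable hf).hasProd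
  have hp : 0 < ‖∏' i, f i‖ := norm_pos_iff.2 (tprod_ne_zero hf h0)
  have h2 := (Metric.tendsto_nhds.1 h) _ hp
  obtain ⟨s, hs⟩ := h2.exists
  exact ⟨s, by rwa [dist_comm, dist_eq_norm] at hs⟩

end Pool.Agent.MP_a88b1d_nt.H92.Prod
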