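import Pool.Agent.MP_a88b1d_nt.H92.Theta

/-! Leading terms in `F_∞` and orthonormal systems. -/

namespace Pool.Agent.MP_a88b1d_nt.H92

open H42 Polynomial

variable {C : Type} [NontriviallyNormedField C] [IsUltrametricDist C] [Algebra (ZMod 2) C] {T : C}

omit [IsUltrametricDist C] in
theorem two_eq : (2 : C) = 0 := by
  have : (2 : C) = algebraMap (ZMod 2) C 2 := (map_ofNat _ 2).symm
  rw [this]
  have h : (2 : ZMod 2) = 0 := rfl
  rw [h, map_zero]

omit [IsUltrametricDist C] in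
theorem charTwo : CharP C 2 := CharTwo.of_one_ne_zero_of_two_eq_zero one_ne_zero two_eq

theorem norm_sum_lt {ι : Type} (s : Finset ι) (f : ι → C) {r : ℝ} (hr : 0 < r)
    (h : ∀ i ∈ s, ‖f i‖ < r) : ‖∑ i ∈ s, f i‖ < r := by
  classical
  induction s using Finset.induction_on with
  | empty => simpa using hr
  | insert a t ha ih =>
    rw [Finset.sum_insert ha]
    exact (IsUltrametricDist.norm_add_le_max _ _).trans_lt
      (max_lt (h a (Finset.mem_insert_self _ _)) (ih fun i hi => h i (Finset.mem_insert_of_mem hi)))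

theorem norm_eq_of_sub_lt {x y : C} (h : ‖x - y‖ < ‖y‖) : ‖x‖ = ‖y‖ := by
  have := norm_add_of_lt h
  rwa [add_sub_cancel] at this

theorem aeval_lead (hT : 1 < ‖T‖) {f : A} (hf : f ≠ 0) :
    ‖aeval T f - T ^ f.natDegree‖ < ‖T ^ f.natDegree‖ := by
  have hm : f.Monic := by
    have h := leadingCoeff_ne_zero.2 hf
    unfold Monic
    generalize f.leadingCoeff = c at h
    revert c; decide
  have h0 : (0 : ℝ) < ‖T‖ := by linarith
  rw [aeval_eq_sum_range, Finset.sum_range_succ, hm.coeff_natDegree, one_smul, add_sub_cancel_right]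
  refine norm_sum_lt _ _ (by rw [norm_pow]; positivity) fun i hi => ?_
  have hc : f.coeff i = 0 ∨ f.coeff i = 1 := by generalize f.coeff i = c; revert c; decide
  rcases hc with h | h
  · rw [h, zero_smul, norm_zero, norm_pow]; positivity
  · rw [h, one_smul, norm_pow, norm_pow]
    exact pow_lt_pow_right₀ hT (Finset.mem_range.1 hi)

theorem norm_aeval (hT : 1 < ‖T‖) {f : A} (hf : f ≠ 0) : ‖aeval T f‖ = ‖T‖ ^ f.natDegree := by
  rw [norm_eq_of_sub_lt (aeval_lead hT hf), norm_pow]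

omit [IsUltrametricDist C] [Algebra (ZMod 2) C] in
theorem T_mem : T ∈ Finf T :=
  Subfield.le_topologicalClosure _ (Subfield.subset_closure rfl)

omit [IsUltrametricDist C] [Algebra (ZMod 2) C] in
theorem Finf_closed : IsClosed (Finf T : Set C) := Subfield.isClosed_topologicalClosure _

omit [IsUltrametricDist C] in
theorem aeval_mem (f : A) : aeval T f ∈ Finf T := by
  induction f using Polynomial.induction_on' with
  | add p q hp hq => rw [map_add]; exact add_mem hp hq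
  | monomial n c =>
    have hc : c = 0 ∨ c = 1 := by revert c; decide
    rcases hc with rfl | rfl
    · simp
    · rw [monomial_one_right_eq_X_pow, map_pow, aeval_X]; exact pow_mem T_mem _

/-- One-units. -/
def One (x : C) : Prop := ‖x - 1‖ < 1

omit [Algebra (ZMod 2) C] in
theorem One.norm {x : C} (h : One x) : ‖x‖ = 1 := Prod.norm_eq_one h

omit [Algebra (ZMod 2) C] in
theorem One.mul {x y : C} (hx : One x) (hy : One y) : One (x * y) := by
  unfold One
  have : x * y - 1 = x * (y - 1) + (x - 1) := by ring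
  rw [this]
  refine (IsUltrametricDist.norm_add_le_max _ _).trans_lt (max_lt ?_ hx)
  rw [norm_mul, hx.norm, one_mul]; exact hy

omit [Algebra (ZMod 2) C] in
theorem One.inv {x : C} (hx : One x) : One x⁻¹ := by
  have h0 : x ≠ 0 := by rw [← norm_ne_zero_iff, hx.norm]; exact one_ne_zero
  unfold One
  have : x⁻¹ - 1 = -(x - 1) / x := by field_simp; ring
  rw [this, norm_div, norm_neg, hx.norm, div_one]; exact hx

omit [IsUltrametricDist C] [Algebra (ZMod 2) C] in
theorem One.one : One (1 : C) := by simp [One]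

omit [Algebra (ZMod 2) C] in
theorem One.pow {x : C} (hx : One x) (n : ℕ) : One (x ^ n) := by
  induction n with
  | zero => simpa using One.one
  | succ n ih => rw [pow_succ]; exact ih.mul hx

omit [IsUltrametricDist C] [Algebra (ZMod 2) C] in
theorem one_div_iff {x y : C} (hy : y ≠ 0) : One (x / y) ↔ ‖x - y‖ < ‖y‖ := by
  unfold One
  rw [div_sub_one hy, norm_div, div_lt_one (norm_pos_iff.2 hy)]

theorem One.eq_one {x : C} (hx : One x) {m : ℕ} (hm : m ≠ 0) (h : x ^ m = 1) : x = 1 := by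
  haveI : CharP C 2 := charTwo
  obtain ⟨k, j, hj, rfl⟩ := Nat.exists_eq_two_pow_mul_odd hm
  have h1 : x ^ j = 1 := by
    have : (x ^ j - 1) ^ 2 ^ k = 0 := by
      rw [sub_pow_char_pow, one_pow, ← pow_mul, mul_comm, h, sub_self]
    exact sub_eq_zero.1 (pow_eq_zero_iff (by positivity) |>.1 this)
  have h2 := geom_sum_mul x j
  rw [h1, sub_self, mul_eq_zero, sub_eq_zero] at h2
  refine h2.resolve_left fun h3 => ?_
  have h4 : ‖∑ i ∈ Finset.range j, (x ^ i - 1)‖ < 1 :=
    norm_sum_lt _ _ one_pos fun i _ => hx.pow i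
  obtain ⟨l, rfl⟩ := hj
  rw [Finset.sum_sub_distrib, h3] at h4
  simp [two_eq] at h4

theorem lead (hT : 1 < ‖T‖) {x : C} (hx : x ∈ Finf T) (h0 : x ≠ 0) : ∃ n : ℤ, One (x / T ^ n) := by
  have hT0 : T ≠ 0 := by rw [← norm_pos_iff]; linarith
  have h1 : x ∈ closure (Subfield.closure {T} : Set C) := hx
  obtain ⟨y, hy, hxy⟩ := Metric.mem_closure_iff.1 h1 _ (norm_pos_iff.2 h0)
  rw [dist_comm, dist_eq_norm, ← one_div_iff h0] at hxy
  have hy0 : y ≠ 0 := by
    rintro rfl
    simp [One] at hxy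
  have hr : ∀ u ∈ Subring.closure {T}, ∃ f : A, aeval T f = u := by
    intro u hu
    have : Subring.closure {T} ≤ (aeval T : A →ₐ[ZMod 2] C).toRingHom.range :=
      Subring.closure_le.2 (by rintro _ rfl; exact ⟨X, aeval_X _⟩)
    exact this hu
  obtain ⟨u, hu, v, hv, rfl⟩ := Subfield.mem_closure_iff.1 hy
  obtain ⟨f, rfl⟩ := hr u hu
  obtain ⟨g, rfl⟩ := hr v hv
  have hf : f ≠ 0 := by rintro rfl; simp at hy0
  have hg : g ≠ 0 := by rintro rfl; simp at hy0
  have h2 := (one_div_iff (pow_ne_zero _ hT0)).2 (aeval_lead hT hf)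
  have h3 := (one_div_iff (pow_ne_zero _ hT0)).2 (aeval_lead hT hg)
  have hf0 : aeval T f ≠ 0 := fun h => hy0 (by rw [h, zero_div])
  have hg0 : aeval T g ≠ 0 := fun h => hy0 (by rw [h, div_zero])
  refine ⟨f.natDegree - g.natDegree, ?_⟩
  have := (h2.mul h3.inv).mul hxy.inv
  convert this using 1
  rw [zpow_sub₀ hT0, zpow_natCast, zpow_natCast]
  field_simp

theorem norm_zpow_of_mem (hT : 1 < ‖T‖) {x : C} (hx : x ∈ Finf T) (h0 : x ≠ 0) :
    ∃ n : ℤ, ‖x‖ = ‖T‖ ^ n := by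
  obtain ⟨n, hn⟩ := lead hT hx h0
  have hT0 : T ≠ 0 := by rw [← norm_pos_iff]; linarith
  exact ⟨n, by rw [norm_eq_of_sub_lt ((one_div_iff (zpow_ne_zero _ hT0)).1 hn), norm_zpow]⟩

/-- Two elements of `F_∞` of the same norm have the same leading term. -/
theorem sub_lt_of_norm_eq (hT : 1 < ‖T‖) {x y : C} (hx : x ∈ Finf T) (hy : y ∈ Finf T)
    (h0 : y ≠ 0) (h : ‖x‖ = ‖y‖) : ‖x - y‖ < ‖y‖ := by
  have hx0 : x ≠ 0 := by rw [← norm_pos_iff, h]; exact norm_pos_iff.2 h0
  obtain ⟨n, hn⟩ := lead hT (div_mem hx hy) (div_ne_zero hx0 h0)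
  have h1 := hn.norm
  rw [norm_div, norm_div, h, div_self (norm_ne_zero_iff.2 h0), norm_zpow, div_eq_one_iff_eq
    (by positivity), eq_comm, zpow_eq_one_iff_right₀ (by positivity) hT.ne'] at h1
  rw [h1, zpow_zero, div_one] at hn
  exact (one_div_iff h0).1 hn

/-- Leading term of a combination with coefficients in `F_∞`. -/
theorem comb {ι : Type} [Fintype ι] (hT : 1 < ‖T‖) (x ξ : ι → C) (hx : ∀ i, x i ∈ Finf T)
    (hξ : ∀ i, ‖ξ i‖ ≤ 1) (h0 : ∃ i, x i ≠ 0) : ∃ (j : ι) (t : Finset ι), j ∈ t ∧ x j ≠ 0 ∧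
      (∀ i, ‖x i‖ ≤ ‖x j‖) ∧ ‖∑ i, x i * ξ i - x j * ∑ i ∈ t, ξ i‖ < ‖x j‖ := by
  classical
  obtain ⟨i0, hi0⟩ := h0
  obtain ⟨j, -, hj⟩ := Finset.exists_max_image Finset.univ (fun i => ‖x i‖) ⟨i0, Finset.mem_univ _⟩
  have hj0 : 0 < ‖x j‖ := (norm_pos_iff.2 hi0).trans_le (hj i0 (Finset.mem_univ _))
  refine ⟨j, Finset.univ.filter fun i => ‖x i‖ = ‖x j‖, by simp, norm_pos_iff.1 hj0,
    fun i => hj i (Finset.mem_univ _), ?_⟩
  rw [Finset.sum_filter, Finset.mul_sum, ← Finset.sum_sub_distrib]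
  refine norm_sum_lt _ _ hj0 fun i _ => ?_
  split_ifs with h
  · rw [← sub_mul, norm_mul]
    exact (mul_le_of_le_one_right (norm_nonneg _) (hξ i)).trans_lt
      (sub_lt_of_norm_eq hT (hx i) (hx j) (norm_pos_iff.1 hj0) h)
  · rw [mul_zero, sub_zero, norm_mul]
    exact (mul_le_of_le_one_right (norm_nonneg _) (hξ i)).trans_lt
      (lt_of_le_of_ne (hj i (Finset.mem_univ _)) h)

omit [IsUltrametricDist C] [Algebra (ZMod 2) C] in
theorem norm_of_pow {a : C} {k : ℕ} (hk : k ≠ 0) (h : a ^ k = 1) : ‖a‖ = 1 := by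
  have := congrArg norm h
  rw [norm_pow, norm_one] at this
  exact (pow_eq_one_iff_of_nonneg (norm_nonneg _) hk).1 this

end Pool.Agent.MP_a88b1d_nt.H92
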