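import Pool.Agent.MP_a88b1d_nt.H92.Mob
import Pool.Agent.MP_a88b1d_nt.H92.Prod

/-! Theta products of a discrete group, independence of base points. -/

namespace Pool.Agent.MP_a88b1d_nt.H92

open H42 Filter Topology

variable {K : Type} [NontriviallyNormedField K] {G : Type} [Group G]

/-- A discrete group of matrices over the closed subfield `E` with unit determinants. -/
structure Good (E : Subfield K) (ρ : G →* Matrix (Fin 2) (Fin 2) K) : Prop where
  closed : IsClosed (E : Set K)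
  ent : ∀ g i j, ρ g i j ∈ E
  det : ∀ g, ‖(ρ g).det‖ = 1
  disc : ∀ R : ℝ, {g | nm (ρ g) ≤ R}.Finite

/-- `a` is outside the orbit of `w`. -/
def Off (ρ : G →* Matrix (Fin 2) (Fin 2) K) (a w : K) : Prop := ∀ g, mob (ρ g) w ≠ a

/-- Theta product with divisor `G c - G d`, value at `a` over value at `b`. -/
noncomputable def Th (ρ : G →* Matrix (Fin 2) (Fin 2) K) (a b c d : K) : K :=
  ∏' g : G, cr a b (mob (ρ g) c) (mob (ρ g) d)

variable {E : Subfield K} {ρ : G →* Matrix (Fin 2) (Fin 2) K} {a b c d e : K}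

theorem Good.inE (h : Good E ρ) (g : G) : InE E (ρ g) :=
  ⟨h.ent g, by rw [← norm_ne_zero_iff, h.det]; exact one_ne_zero⟩

theorem Good.nm (h : Good E ρ) (g : G) (ha : a ∉ E) : mob (ρ g) a ∉ E := (h.inE g).mob_notMem ha

theorem Good.mul (h : Good E ρ) (g k : G) (ha : a ∉ E) :
    mob (ρ (g * k)) a = mob (ρ g) (mob (ρ k) a) := by
  rw [map_mul, mob_mul (h.inE g) (h.inE k) ha]

theorem Good.inv_mob (h : Good E ρ) (g : G) (ha : a ∉ E) : mob (ρ g⁻¹) (mob (ρ g) a) = a := by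
  rw [← h.mul _ _ ha, inv_mul_cancel, map_one, mob_one]

theorem Good.mob_inv (h : Good E ρ) (g : G) (ha : a ∉ E) : mob (ρ g) (mob (ρ g⁻¹) a) = a := by
  rw [← h.mul _ _ ha, mul_inv_cancel, map_one, mob_one]

theorem Off.right (h : Good E ρ) (ho : Off ρ a c) (hc : c ∉ E) (g : G) :
    Off ρ a (mob (ρ g) c) := fun k => by rw [← h.mul _ _ hc]; exact ho _

theorem Off.symm (h : Good E ρ) (ho : Off ρ a c) (ha : a ∉ E) : Off ρ c a := fun k hk =>
  ho k⁻¹ (by rw [← hk, h.inv_mob _ ha])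

theorem Off.left (h : Good E ρ) (ho : Off ρ a c) (ha : a ∉ E) (hc : c ∉ E) (g : G) :
    Off ρ (mob (ρ g) a) c := ((ho.symm h ha).right h ha g).symm h hc

theorem cr_ne_zero (h1 : c ≠ a) (h2 : c ≠ b) (h3 : d ≠ a) (h4 : d ≠ b) : cr a b c d ≠ 0 :=
  div_ne_zero (mul_ne_zero (sub_ne_zero.2 h1.symm) (sub_ne_zero.2 h4.symm))
    (mul_ne_zero (sub_ne_zero.2 h3.symm) (sub_ne_zero.2 h2.symm))

theorem cr_mul_left (h2 : c ≠ b) (h4 : d ≠ b) : cr a b c d * cr b e c d = cr a e c d := by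
  have h2' := sub_ne_zero.2 h2.symm
  have h4' := sub_ne_zero.2 h4.symm
  unfold cr
  rw [div_mul_div_comm, ← mul_div_mul_left ((a - c) * (e - d)) _ (mul_ne_zero h2' h4')]
  congr 1 <;> ring

theorem cr_symm (a b c d : K) : cr a b c d = cr c d a b := by
  unfold cr; congr 1 <;> ring

theorem cr_mul_right (h2 : d ≠ a) (h4 : d ≠ b) : cr a b c d * cr a b d e = cr a b c e := by
  rw [cr_symm a b c d, cr_symm a b d e, cr_symm a b c e, cr_mul_left h2.symm h4.symm]

theorem cr_self (h2 : c ≠ a) (h4 : d ≠ a) : cr a a c d = 1 := by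
  have h2' := sub_ne_zero.2 h2.symm
  have h4' := sub_ne_zero.2 h4.symm
  unfold cr
  rw [mul_comm, div_self (mul_ne_zero h4' h2')]

theorem Th_left (h : Good E ρ) (ha : a ∉ E) (hb : b ∉ E) (hc : c ∉ E) (hd : d ∉ E) (k : G) :
    Th ρ (mob (ρ k) a) (mob (ρ k) b) c d = Th ρ a b c d := by
  unfold Th
  rw [← (Equiv.mulLeft k).tprod_eq]
  refine tprod_congr fun g => ?_
  rw [Equiv.coe_mulLeft, h.mul _ _ hc, h.mul _ _ hd,
    cr_mob (h.inE k) ha hb (h.nm g hc) (h.nm g hd)]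

theorem Th_right (h : Good E ρ) (hc : c ∉ E) (hd : d ∉ E) (k : G) :
    Th ρ a b (mob (ρ k) c) (mob (ρ k) d) = Th ρ a b c d := by
  unfold Th
  rw [← (Equiv.mulRight k).tprod_eq fun g => cr a b (mob (ρ g) c) (mob (ρ g) d)]
  refine tprod_congr fun g => ?_
  rw [Equiv.coe_mulRight, h.mul _ _ hc, h.mul _ _ hd]

theorem Th_symm (h : Good E ρ) (ha : a ∉ E) (hb : b ∉ E) (hc : c ∉ E) (hd : d ∉ E) :
    Th ρ a b c d = Th ρ c d a b := by
  unfold Th
  rw [← (Equiv.inv G).tprod_eq]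
  refine tprod_congr fun g => ?_
  rw [Equiv.inv_apply, ← cr_mob (h.inE g) ha hb (h.nm _ hc) (h.nm _ hd), h.mob_inv _ hc,
    h.mob_inv _ hd, cr_symm]

theorem Th_self (h1 : Off ρ a c) (h2 : Off ρ a d) : Th ρ a a c d = 1 := by
  unfold Th
  rw [tprod_congr fun g => cr_self (h1 g) (h2 g), tprod_one]

variable [IsUltrametricDist K]

theorem Good.tendsto_bf (h : Good E ρ) (ha : a ∉ E) (hc : c ∉ E) :
    Tendsto (fun g => ‖bf a c (ρ g)‖) cofinite atTop := by
  obtain ⟨k, R, hk, hg⟩ := grow h.closed ha hc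
  rw [tendsto_atTop]
  intro M
  rw [eventually_cofinite]
  refine (h.disc (max R (M / k))).subset fun g hg' => ?_
  simp only [Set.mem_setOf_eq, not_le] at hg' ⊢
  by_contra hn
  rw [not_le, max_lt_iff, div_lt_iff₀ hk] at hn
  have := hg _ (h.inE g) (h.det g) hn.1.le
  linarith [hn.2]

theorem Good.tendsto (h : Good E ρ) (ha : a ∉ E) (hb : b ∉ E) (hc : c ∉ E) (hd : d ∉ E)
    (h1 : Off ρ a d) (h2 : Off ρ b c) :
    Tendsto (fun g => cr a b (mob (ρ g) c) (mob (ρ g) d)) cofinite (𝓝 1) := by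
  rw [tendsto_iff_norm_sub_tendsto_zero]
  have h3 := ((h.tendsto_bf ha hd).atTop_mul_atTop₀ (h.tendsto_bf hb hc)).const_div_atTop
    ‖(a - b) * (c - d)‖
  refine h3.congr fun g => ?_
  rw [cr_sub_one (h.inE g) hc hd (h1 g) (h2 g), norm_div, norm_mul _ (ρ g).det, h.det, mul_one,
    norm_mul (bf _ _ _)]

variable [CompleteSpace K]

theorem Good.hasProd (h : Good E ρ) (ha : a ∉ E) (hb : b ∉ E) (hc : c ∉ E) (hd : d ∉ E)
    (h1 : Off ρ a d) (h2 : Off ρ b c) :
    HasProd (fun g => cr a b (mob (ρ g) c) (mob (ρ g) d)) (Th ρ a b c d) :=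
  (Prod.multipliable (h.tendsto ha hb hc hd h1 h2)).hasProd

theorem Th_ne_zero (h : Good E ρ) (ha : a ∉ E) (hb : b ∉ E) (hc : c ∉ E) (hd : d ∉ E)
    (h1 : Off ρ a c) (h2 : Off ρ a d) (h3 : Off ρ b c) (h4 : Off ρ b d) : Th ρ a b c d ≠ 0 :=
  Prod.tprod_ne_zero (h.tendsto ha hb hc hd h2 h3) fun g =>
    cr_ne_zero (h1 g) (h3 g) (h2 g) (h4 g)

theorem Th_mul_left (h : Good E ρ) (ha : a ∉ E) (hb : b ∉ E) (he : e ∉ E) (hc : c ∉ E)
    (hd : d ∉ E) (h2 : Off ρ a d) (h3 : Off ρ b c) (h4 : Off ρ b d) (h5 : Off ρ e c) :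
    Th ρ a b c d * Th ρ b e c d = Th ρ a e c d := by
  have := (h.hasProd ha hb hc hd h2 h3).mul (h.hasProd hb he hc hd h4 h5)
  simp only [cr_mul_left (h3 _) (h4 _)] at this
  exact this.tprod_eq.symm

theorem Th_mul_right (h : Good E ρ) (ha : a ∉ E) (hb : b ∉ E) (hc : c ∉ E) (hd : d ∉ E)
    (he : e ∉ E) (h1 : Off ρ a d) (h2 : Off ρ a e) (h3 : Off ρ b c) (h4 : Off ρ b d) :
    Th ρ a b c d * Th ρ a b d e = Th ρ a b c e := by
  have := (h.hasProd ha hb hc hd h1 h3).mul (h.hasProd ha hb hd he h2 h4)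
  simp only [cr_mul_right (h1 _) (h4 _)] at this
  exact this.tprod_eq.symm

/-- The multiplier does not depend on the point. -/
theorem Th_indep_left (h : Good E ρ) (ha : a ∉ E) (hb : b ∉ E) (hc : c ∉ E) (hd : d ∉ E)
    (h1 : Off ρ a c) (h2 : Off ρ a d) (h3 : Off ρ b c) (h4 : Off ρ b d) (k : G) :
    Th ρ (mob (ρ k) a) a c d = Th ρ (mob (ρ k) b) b c d := by
  have e1 := Th_mul_left h (h.nm k ha) (h.nm k hb) ha hc hd (h2.left h ha hd k)
    (h3.left h hb hc k) (h4.left h hb hd k) h1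
  have e2 := Th_mul_left h (h.nm k hb) ha hb hc hd (h4.left h hb hd k) h1 h2 h3
  rw [Th_left h ha hb hc hd] at e1
  rw [← e1, ← e2, mul_comm]

/-- The theta function of a group element does not depend on the base point. -/
theorem Th_indep_right (h : Good E ρ) (ha : a ∉ E) (hb : b ∉ E) (hc : c ∉ E) (hd : d ∉ E)
    (h1 : Off ρ a c) (h2 : Off ρ a d) (h3 : Off ρ b c) (h4 : Off ρ b d) (k : G) :
    Th ρ a b c (mob (ρ k) c) = Th ρ a b d (mob (ρ k) d) := by
  have e1 := Th_mul_right h ha hb hc hd (h.nm k hc) h2 (h1.right h hc k) h3 h4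
  have e2 := Th_mul_right h ha hb hd (h.nm k hc) (h.nm k hd) (h1.right h hc k)
    (h2.right h hd k) h4 (h3.right h hc k)
  rw [Th_right h hc hd] at e2
  rw [← e1, ← e2, mul_comm]

/-- The period pairing. -/
noncomputable def per (ρ : G →* Matrix (Fin 2) (Fin 2) K) (w z : K) (α β : G) : K :=
  Th ρ (mob (ρ β) z) z w (mob (ρ α) w)

variable {w z w' z' : K}

theorem Th_mul_elt (h : Good E ρ) (ha : a ∉ E) (hb : b ∉ E) (hw : w ∉ E) (h1 : Off ρ a w)
    (h2 : Off ρ b w) (α β : G) : Th ρ a b w (mob (ρ (α * β)) w) =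
      Th ρ a b w (mob (ρ α) w) * Th ρ a b w (mob (ρ β) w) := by
  rw [h.mul _ _ hw, ← Th_mul_right h ha hb hw (h.nm α hw) (h.nm α (h.nm β hw)) (h1.right h hw α)
    ((h1.right h hw β).right h (h.nm β hw) α) h2 (h2.right h hw α), Th_right h hw (h.nm β hw)]

theorem per_mul_left (h : Good E ρ) (hw : w ∉ E) (hz : z ∉ E) (ho : Off ρ z w) (α α' β : G) :
    per ρ w z (α * α') β = per ρ w z α β * per ρ w z α' β :=
  Th_mul_elt h (h.nm β hz) hz hw (ho.left h hz hw β) ho α α'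

theorem per_mul_right (h : Good E ρ) (hw : w ∉ E) (hz : z ∉ E) (ho : Off ρ z w) (α β β' : G) :
    per ρ w z α (β * β') = per ρ w z α β * per ρ w z α β' := by
  have hz' := h.nm β' hz
  have hw' := h.nm α hw
  have o1 := ho.right h hw α
  unfold per
  rw [h.mul _ _ hz, ← Th_mul_left h (h.nm β hz') hz' hz hw hw'
    ((o1.left h hz hw' β').left h hz' hw' β) (ho.left h hz hw β') (o1.left h hz hw' β') ho,
    Th_indep_left h hz' hz hw hw' (ho.left h hz hw β') (o1.left h hz hw' β') ho o1]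

theorem per_ne_zero (h : Good E ρ) (hw : w ∉ E) (hz : z ∉ E) (ho : Off ρ z w) (α β : G) :
    per ρ w z α β ≠ 0 :=
  Th_ne_zero h (h.nm β hz) hz hw (h.nm α hw) (ho.left h hz hw β)
    ((ho.right h hw α).left h hz (h.nm α hw) β) ho (ho.right h hw α)

theorem per_left (h : Good E ρ) (hw : w ∉ E) (hz : z ∉ E) (hz' : z' ∉ E) (ho : Off ρ z w)
    (ho' : Off ρ z' w) (α β : G) : per ρ w z α β = per ρ w z' α β :=
  Th_indep_left h hz hz' hw (h.nm α hw) ho (ho.right h hw α) ho' (ho'.right h hw α) β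

theorem per_right (h : Good E ρ) (hw : w ∉ E) (hw' : w' ∉ E) (hz : z ∉ E) (ho : Off ρ z w)
    (ho' : Off ρ z w') (α β : G) : per ρ w z α β = per ρ w' z α β :=
  Th_indep_right h (h.nm β hz) hz hw hw' (ho.left h hz hw β) (ho'.left h hz hw' β) ho ho' α

theorem per_symm (h : Good E ρ) (hw : w ∉ E) (hz : z ∉ E) (ho : Off ρ z w) (α β : G) :
    per ρ w z α β = per ρ z w β α := by
  have hz' := h.nm β hz
  have hw' := h.nm α hw
  have os := ho.symm h hz
  have o1 := ho.right h hw α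
  have o2 := ho.left h hz hw β
  have o3 := o1.left h hz hw' β
  unfold per
  have e1 := Th_mul_left h hz' hz hz' hw hw' o3 ho o1 o2
  have e2 := Th_mul_right h hz hz' hw hw' hw o1 ho o2 o3
  rw [Th_self o2 o3] at e1
  rw [Th_symm h hz hz' hw hw, Th_self os (o2.symm h hz')] at e2
  rw [Th_symm h hw' hw hz hz']
  have e3 := Th_ne_zero h hz hz' hw hw' ho o1 o2 o3
  apply mul_right_cancel₀ e3
  rw [e1, mul_comm, e2]

theorem per_hasProd (h : Good E ρ) (hw : w ∉ E) (hz : z ∉ E) (ho : Off ρ z w) (α β : G) :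
    HasProd (fun g : G =>
      (mob (ρ β) z - mob (ρ g) w) * (z - mob (ρ (g * α)) w) /
        ((mob (ρ β) z - mob (ρ (g * α)) w) * (z - mob (ρ g) w))) (per ρ w z α β) := by
  have := h.hasProd (h.nm β hz) hz hw (h.nm α hw) ((ho.right h hw α).left h hz (h.nm α hw) β) ho
  simp only [← h.mul _ _ hw] at this
  exact this

end Pool.Agent.MP_a88b1d_nt.H92
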